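import Pool.Agent.PebAlg.M13
import Pool.Agent.CoWL.Base

/-!
# The polynomial-time invariant: the algorithm

The input is the adjacency matrix `w` of a graph isomorphic to a graph `Gr (kap ch)` with vertices
`0, ..., n - 1`.  `rel tab w l p q r` decodes the relation number `l`.  All other functions are defined
for an arbitrary `R : ℕ → ℕ → ℕ → ℕ → Bool`.
-/

set_option autoImplicit false

namespace Pool.Agent.LWP

open Pool.Agent.PebAlg (side adj deg)

/-! ### Decoding -/

/-- number of neighbours of degree one -/
def lf (w : List Bool) (v : ℕ) : ℕ :=
  ((List.range (side w)).filter (fun u => adj w v u && decide (deg w u = 1))).length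

/-- the decoded relation `l`; `tab` is the table of the colours -/
def rel (tab : List (List Bool)) (w : List Bool) (l p q r : ℕ) : Bool :=
  decide (lf w p = 2) && (decide (lf w q = 2) && (decide (lf w r = 2) &&
    (List.range (side w)).any (fun x => decide (lf w x = 3) && (adj w p x &&
      (List.range (side w)).any (fun y => decide (lf w y = 4) && (adj w x y && (adj w q y &&
        (List.range (side w)).any (fun z => decide (5 ≤ lf w z) && (adj w y z && (adj w r z &&
          (tab.getD (lf w z - 5) []).getD l false))))))))))

/-! ### The algorithm for a decoded structure -/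

section alg

variable (n : ℕ) (R : ℕ → ℕ → ℕ → ℕ → Bool)

/-- existential quantifier over the vertices -/
def exB (P : ℕ → Bool) : Bool := (List.range n).any P

/-- universal quantifier over the vertices -/
def allB (P : ℕ → Bool) : Bool := (List.range n).all P

/-- membership in a list of vertices -/
def memB (S : List ℕ) (x : ℕ) : Bool := S.any (fun y => decide (y = x))

/-- number of elements smaller than `u` -/
def rk (u : ℕ) : ℕ := ((List.range n).filter (fun v => R 0 v v v && decide (v < u))).length

/-- the elements -/
def els : List ℕ := (List.range n).filter (fun v => R 0 v v v)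

/-- one step of the closure under the partial operation `T` -/
def stp (T : ℕ → ℕ → ℕ → Bool) (S : List ℕ) : List ℕ :=
  (List.range n).filter (fun r => memB S r || S.any (fun p => S.any (fun q => T p q r)))

/-- the closure of the set of all `v < n` with `B v` -/
def clo (T : ℕ → ℕ → ℕ → Bool) (B : ℕ → Bool) : List ℕ :=
  (stp n T)^[n] ((List.range n).filter B)

/-! #### Layer 2 -/

/-- `p` is a point `(i, {j}, v)` of layer 2 -/
def sing (i j p : ℕ) : Bool :=
  R 3 i p p && allB n (fun e => !(R 0 e e e) || (R 4 e p p == decide (e = j)))

/-- the smallest such point -/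
def low (i j p : ℕ) : Bool := sing n R i j p && allB n (fun q => !(decide (q < p)) || !(sing n R i j q))

/-- the points of layer 2 from which the closure starts -/
def base2 (p : ℕ) : Bool :=
  R 5 p p p || exB n (fun i => R 0 i i i && exB n (fun j => R 0 j j j && (sing n R i j p &&
    ((decide (i < j) && low n R i j p) ||
      (decide (j < i) && exB n (fun q => low n R j i q && R 7 p q q))))))

/-- the chosen points of layer 2 -/
def S2 : List ℕ := clo n (R 6) (base2 n R)

/-- `p` is a point `(i, univ.erase i, v)` -/
def full (p : ℕ) : Bool :=
  exB n (fun i => R 3 i p p && allB n (fun e => !(R 0 e e e) || (R 4 e p p == !(decide (e = i)))))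

/-- the number of the chosen full points without a mark -/
def T2 : ℕ := ((S2 n R).filter (fun p => full n R p && !(R 8 p p p))).length

/-! #### Layer 3 -/

/-- `p` and `q` are different points of the same fibre of layer 3 -/
def fib (p q : ℕ) : Bool := R 12 p q q || R 12 q p p

/-- the points of layer 3 from which the closure starts -/
def base3 (p : ℕ) : Bool :=
  R 2 p p p && (allB n (fun j => !(R 10 j p p)) && (R 13 p p p ||
    (allB n (fun q => !(fib R p q && R 13 q q q)) &&
      allB n (fun q => !(fib R p q && decide (q < p))))))

/-- the chosen points of layer 3 -/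
def S3 : List ℕ := clo n (R 11) (base3 n R)

/-- is `m` even? -/
def evn (m : ℕ) : Bool := decide (2 * (m / 2) = m)

/-- `p` is a point `(A, ω, v)` such that `ω` is a transversal of the pairs -/
def trv (p : ℕ) : Bool :=
  allB n (fun u => allB n (fun v => !(R 0 u u u && (R 0 v v v && (evn (rk n R u) &&
    decide (rk n R v = rk n R u + 1)))) || xor (R 10 u p p) (R 10 v p p)))

/-- the chosen points `(∅, ω, v)` with a transversal `ω` -/
def trs : List ℕ := (S3 n R).filter (fun p => allB n (fun j => !(R 9 j p p)) && trv n R p)

/-- number of elements of even rank in `ω` -/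
def evs (p : ℕ) : ℕ :=
  ((List.range n).filter (fun u => R 0 u u u && (evn (rk n R u) && R 10 u p p))).length

/-- the marked value minus the value of `p` -/
def cv (p : ℕ) : ℕ :=
  if R 14 p p p then 0 else if exB n (fun q => R 12 p q q && R 14 q q q) then 1 else 2

/-- the alternating sum over the transversals -/
def Phi : ℕ := ((trs n R).map (fun p => if evn (evs n R p) then cv n R p else 2 * cv n R p)).sum

/-- is `m` congruent to `2` modulo `3`? -/
def two3 (m : ℕ) : Bool := decide (3 * (m / 3) + 2 = m)

/-- the output -/
def out : List Bool :=
  (xor (evn (T2 n R)) (two3 (Phi n R))) :: (els n R).map (fun _ => true)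

end alg

/-- the algorithm -/
def algo (tab : List (List Bool)) (w : List Bool) : List Bool := out (side w) (rel tab w)

end Pool.Agent.LWP
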