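import Pool.Agent.LWP.Rank

/-!
# Layer 3: the closure
-/

set_option autoImplicit false

namespace Pool.Agent.LWP

open Finset Classical Pool.Agent.CoWL

variable {a n : ℕ} {ch : E a → ZMod 2} {R : ℕ → ℕ → ℕ → ℕ → Bool} {V : Pt a → ℕ}

lemma L3_eq (h : Mod ch n R V) {A A' B B' : Finset (E a)} {v v' : ZMod 3}
    (e : V (Pt.p3 A B v) = V (Pt.p3 A' B' v')) : A = A' ∧ B = B' ∧ v = v' := by
  have := h.inj e
  injection this with h1 h2 h3
  exact ⟨h1, h2, h3⟩

lemma L3_fib (h : Mod ch n R V) {A B : Finset (E a)} {v : ZMod 3} {q : ℕ} :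
    fib R (V (Pt.p3 A B v)) q = true ↔ ∃ v', v' ≠ v ∧ q = V (Pt.p3 A B v') := by
  unfold fib
  rw [Bool.or_eq_true, h.r12, h.r12]
  constructor
  · rintro (⟨A', B', u, h1, h2⟩ | ⟨A', B', u, h1, h2⟩)
    · obtain ⟨rfl, rfl, rfl⟩ := L3_eq h h1
      refine ⟨v + 1, ?_, h2⟩
      intro hc
      have : (1 : ZMod 3) = 0 := by
        have h3 : v + 1 = v + 0 := by rw [hc, add_zero]
        exact add_left_cancel h3
      exact absurd this (by decide)
    · obtain ⟨rfl, rfl, rfl⟩ := L3_eq h h2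
      refine ⟨u, ?_, h1⟩
      intro hc
      have : (0 : ZMod 3) = 1 := by
        have h3 : u + 0 = u + 1 := by rw [add_zero]; exact hc
        exact add_left_cancel h3
      exact absurd this (by decide)
  · rintro ⟨v', hv, rfl⟩
    have h3 : ∀ x y : ZMod 3, y ≠ x → y = x + 1 ∨ x = y + 1 := by decide
    rcases h3 v v' hv with h4 | h4
    · left
      exact ⟨A, B, v, rfl, by rw [h4]⟩
    · right
      exact ⟨A, B, v', rfl, by rw [h4]⟩

/-- the base of the closure -/
lemma L3_base (h : Mod ch n R V) (w : Finset (E a) → ZMod 3)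
    (hw0 : ∀ A : Finset (E a), A.card = a → w A = 0)
    (hw1 : ∀ A : Finset (E a), A.card ≠ a → ∀ v, V (Pt.p3 A ∅ (w A)) ≤ V (Pt.p3 A ∅ v)) (x : ℕ) :
    base3 n R x = true ↔ ∃ A, x = V (Pt.p3 A ∅ (w A)) := by
  unfold base3
  rw [Bool.and_eq_true, Bool.and_eq_true, Bool.or_eq_true, Bool.and_eq_true, h.r2, allB_iff,
    allB_iff, allB_iff]
  constructor
  · rintro ⟨⟨A, B, v, rfl⟩, h1, h2⟩
    have hB : B = ∅ := by
      rw [Finset.eq_empty_iff_forall_notMem]
      intro j hj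
      have h3 := h1 (V (Pt.el j)) (h.lt _)
      have h4 : R 10 (V (Pt.el j)) (V (Pt.p3 A B v)) (V (Pt.p3 A B v)) = true :=
        (h.r10 _ _).2 ⟨j, A, B, v, hj, rfl, rfl⟩
      rw [h4] at h3
      simp at h3
    subst hB
    refine ⟨A, ?_⟩
    rcases h2 with h2 | ⟨h2, h3⟩
    · obtain ⟨A', hA', h4⟩ := (h.r13 _).1 h2
      obtain ⟨rfl, -, rfl⟩ := L3_eq h h4
      rw [hw0 _ hA']
    · by_cases hA : A.card = a
      · by_cases hv : v = 0
        · rw [hw0 _ hA, hv]
        · exfalso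
          have h4 := h2 (V (Pt.p3 A ∅ 0)) (h.lt _)
          have h5 : fib R (V (Pt.p3 A ∅ v)) (V (Pt.p3 A ∅ 0)) = true :=
            (L3_fib h).2 ⟨0, fun hc => hv hc.symm, rfl⟩
          have h6 : R 13 (V (Pt.p3 A ∅ 0)) (V (Pt.p3 A ∅ 0)) (V (Pt.p3 A ∅ 0)) = true :=
            (h.r13 _).2 ⟨A, hA, rfl⟩
          rw [h5, h6] at h4
          simp at h4
      · by_cases hv : v = w A
        · rw [hv]
        · exfalso
          have h4 := h3 (V (Pt.p3 A ∅ (w A))) (h.lt _)
          have h5 : fib R (V (Pt.p3 A ∅ v)) (V (Pt.p3 A ∅ (w A))) = true :=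
            (L3_fib h).2 ⟨w A, fun hc => hv hc.symm, rfl⟩
          rw [h5] at h4
          have h6 : ¬ V (Pt.p3 A ∅ (w A)) < V (Pt.p3 A ∅ v) := by simpa using h4
          have h7 := hw1 A hA v
          have h8 : V (Pt.p3 A ∅ (w A)) = V (Pt.p3 A ∅ v) := by omega
          exact hv (L3_eq h h8).2.2.symm
  · rintro ⟨A, rfl⟩
    refine ⟨⟨A, ∅, w A, rfl⟩, ?_, ?_⟩
    · intro j _
      by_contra hc
      have h3 : R 10 j (V (Pt.p3 A ∅ (w A))) (V (Pt.p3 A ∅ (w A))) = true := by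
        simpa using hc
      obtain ⟨j', A', B', v', h4, -, h5⟩ := (h.r10 _ _).1 h3
      rw [← (L3_eq h h5).2.1] at h4
      exact absurd h4 (Finset.notMem_empty _)
    · by_cases hA : A.card = a
      · left
        rw [hw0 _ hA]
        exact (h.r13 _).2 ⟨A, hA, rfl⟩
      · right
        refine ⟨?_, ?_⟩
        · intro q _
          by_contra hc
          have h3 : fib R (V (Pt.p3 A ∅ (w A))) q = true ∧ R 13 q q q = true := by
            simpa using hc
          obtain ⟨v', -, rfl⟩ := (L3_fib h).1 h3.1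
          obtain ⟨A', hA', h4⟩ := (h.r13 _).1 h3.2
          rw [← (L3_eq h h4).1] at hA'
          exact hA hA'
        · intro q _
          by_contra hc
          have h3 : fib R (V (Pt.p3 A ∅ (w A))) q = true ∧ q < V (Pt.p3 A ∅ (w A)) := by
            simpa using hc
          obtain ⟨v', -, rfl⟩ := (L3_fib h).1 h3.1
          have h4 := hw1 A hA v'
          omega

theorem S3_spec (h : Mod ch n R V) : ∃ w : Finset (E a) → ZMod 3,
    (∀ A : Finset (E a), A.card = a → w A = 0) ∧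
    (∀ x, x ∈ S3 n R → ∃ A B, x = V (Pt.p3 A B (X3 A B w))) ∧
    (∀ A B : Finset (E a), Disjoint A B → V (Pt.p3 A B (X3 A B w)) ∈ S3 n R) := by
  have hex : ∀ A : Finset (E a), ∃ v0 : ZMod 3, ∀ v, V (Pt.p3 A ∅ v0) ≤ V (Pt.p3 A ∅ v) :=
    fun A => Finite.exists_min (fun v : ZMod 3 => V (Pt.p3 A ∅ v))
  choose m hm using hex
  set w : Finset (E a) → ZMod 3 := fun A => if A.card = a then 0 else m A with hw
  have hw0 : ∀ A : Finset (E a), A.card = a → w A = 0 := by
    intro A hA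
    simp only [hw]
    rw [if_pos hA]
  have hw1 : ∀ A : Finset (E a), A.card ≠ a →
      ∀ v, V (Pt.p3 A ∅ (w A)) ≤ V (Pt.p3 A ∅ v) := by
    intro A hA v
    simp only [hw]
    rw [if_neg hA]
    exact hm A v
  have hb := L3_base h w hw0 hw1
  refine ⟨w, hw0, ?_, ?_⟩
  · intro x hx
    unfold S3 at hx
    refine (clo_sound (fun y => ∃ A B, y = V (Pt.p3 A B (X3 A B w))) ?_ ?_ x hx).2
    · intro y _ hy
      obtain ⟨A, hA⟩ := (hb y).1 hy
      exact ⟨A, ∅, by rw [X3_empty]; exact hA⟩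
    · rintro p q r ⟨A1, B1, h1⟩ ⟨A2, B2, h2⟩ h3
      obtain ⟨j, A, B, v, v', hA, hB, h4, h5, h6⟩ := (h.r11 _ _ _).1 h3
      rw [h1] at h4
      rw [h2] at h5
      obtain ⟨rfl, rfl, rfl⟩ := L3_eq h h4
      obtain ⟨rfl, rfl, rfl⟩ := L3_eq h h5
      exact ⟨_, _, by rw [h6, ← X3_insert w hB]⟩
  · intro A B hAB
    unfold S3
    refine clo_complete (fun k y => ∃ A B : Finset (E a), Disjoint A B ∧ B.card ≤ k ∧
      y = V (Pt.p3 A B (X3 A B w))) ?_ ?_ ?_ B.card _ ?_ ⟨A, B, hAB, le_rfl, rfl⟩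
    · rintro k x ⟨A, B, -, -, rfl⟩
      exact h.lt _
    · rintro x ⟨A, B, -, hB, rfl⟩
      have hB' : B = ∅ := Finset.card_eq_zero.1 (Nat.le_zero.1 hB)
      subst hB'
      rw [hb, X3_empty]
      exact ⟨A, rfl⟩
    · rintro k r ⟨A, B, hd, hB, rfl⟩
      by_cases hk : B.card ≤ k
      · left
        exact ⟨A, B, hd, hk, rfl⟩
      · right
        have hne : B.Nonempty := by
          rw [← Finset.card_pos]
          omega
        obtain ⟨j, hj⟩ := hne
        have hjA : j ∉ A := fun hc => (Finset.disjoint_left.1 hd hc) hj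
        have hj' : j ∉ B.erase j := Finset.notMem_erase j B
        have hc : (B.erase j).card ≤ k := by
          rw [Finset.card_erase_of_mem hj]
          omega
        have hd1 : Disjoint A (B.erase j) := hd.mono_right (Finset.erase_subset _ _)
        have hd2 : Disjoint (insert j A) (B.erase j) := by
          rw [Finset.disjoint_insert_left]
          exact ⟨hj', hd1⟩
        refine ⟨V (Pt.p3 A (B.erase j) (X3 A (B.erase j) w)),
          V (Pt.p3 (insert j A) (B.erase j) (X3 (insert j A) (B.erase j) w)),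
          ⟨A, B.erase j, hd1, hc, rfl⟩, ⟨insert j A, B.erase j, hd2, hc, rfl⟩, ?_⟩
        refine (h.r11 _ _ _).2 ⟨j, A, B.erase j, _, _, hjA, hj', rfl, rfl, ?_⟩
        rw [← X3_insert w hj', Finset.insert_erase hj]
    · have h1 : B.card ≤ Fintype.card (E a) := Finset.card_le_univ B
      have h2 : Fintype.card (E a) = a * 2 := by simp
      have h3 := h.two_mul_le
      omega

end Pool.Agent.LWP
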