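import Pool.Agent.LWP.Rank

/-!
# Layer 3: the alternating sum
-/

set_option autoImplicit false

namespace Pool.Agent.LWP

open Finset Classical Pool.Agent.CoWL

variable {a n : ℕ} {ch : E a → ZMod 2} {R : ℕ → ℕ → ℕ → ℕ → Bool} {V : Pt a → ℕ}

lemma Phi_r9 (h : Mod ch n R V) (x : ℕ) (A B : Finset (E a)) (v : ZMod 3) :
    R 9 x (V (Pt.p3 A B v)) (V (Pt.p3 A B v)) = true ↔ ∃ j ∈ A, x = V (Pt.el j) := by
  rw [h.r9]
  constructor
  · rintro ⟨j, A', B', v', hj, h1, h2⟩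
    have h2' := h.inj h2
    injection h2' with h4 h5 h6
    exact ⟨j, by rw [h4]; exact hj, h1⟩
  · rintro ⟨j, hj, h1⟩
    exact ⟨j, A, B, v, hj, h1, rfl⟩

lemma Phi_r10 (h : Mod ch n R V) (x : ℕ) (A B : Finset (E a)) (v : ZMod 3) :
    R 10 x (V (Pt.p3 A B v)) (V (Pt.p3 A B v)) = true ↔ ∃ j ∈ B, x = V (Pt.el j) := by
  rw [h.r10]
  constructor
  · rintro ⟨j, A', B', v', hj, h1, h2⟩
    have h2' := h.inj h2
    injection h2' with h4 h5 h6
    exact ⟨j, by rw [h5]; exact hj, h1⟩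
  · rintro ⟨j, hj, h1⟩
    exact ⟨j, A, B, v, hj, h1, rfl⟩

lemma Phi_r10e (h : Mod ch n R V) (i : E a) (A B : Finset (E a)) (v : ZMod 3) :
    R 10 (V (Pt.el i)) (V (Pt.p3 A B v)) (V (Pt.p3 A B v)) = true ↔ i ∈ B := by
  rw [Phi_r10 h]
  constructor
  · rintro ⟨j, hj, h1⟩
    have h1' := h.inj h1
    injection h1' with h3
    rw [h3]; exact hj
  · intro hi
    exact ⟨i, hi, rfl⟩

lemma Phi_emp (h : Mod ch n R V) (A B : Finset (E a)) (v : ZMod 3) :
    allB n (fun j => !(R 9 j (V (Pt.p3 A B v)) (V (Pt.p3 A B v)))) = true ↔ A = ∅ := by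
  rw [allB_iff]
  constructor
  · intro H
    rw [Finset.eq_empty_iff_forall_notMem]
    intro j hj
    have h1 := H (V (Pt.el j)) (h.lt _)
    have h2 := (Phi_r9 h (V (Pt.el j)) A B v).2 ⟨j, hj, rfl⟩
    rw [h2] at h1
    exact absurd h1 (by simp)
  · intro hA x _
    rw [Bool.not_eq_true', ← Bool.not_eq_true, Phi_r9 h]
    rintro ⟨j, hj, -⟩
    rw [hA] at hj
    exact absurd hj (Finset.notMem_empty _)

lemma Phi_rho_of_rk (f : E a → ℕ) (hf : Function.Injective f) (i : E a) :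
    ∃ l b, i = rhoP f hf (l, b) ∧ rkN f i = 2 * l.val + (if b then 1 else 0) := by
  refine ⟨((rhoP f hf).symm i).1, ((rhoP f hf).symm i).2, ?_, ?_⟩
  · simp
  · rw [← rkN_rhoP f hf]; simp

lemma Phi_rk_inj (f : E a → ℕ) (hf : Function.Injective f) {i j : E a} (h : rkN f i = rkN f j) :
    i = j := by
  rcases lt_trichotomy (f i) (f j) with h1 | h1 | h1
  · have := rkN_mono h1; omega
  · exact hf h1
  · have := rkN_mono h1; omega

lemma Phi_even (f : E a → ℕ) (hf : Function.Injective f) (i : E a) :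
    evn (rkN f i) = true ↔ ∃ l, i = rhoP f hf (l, false) := by
  rw [evn_iff]
  obtain ⟨l, b, h1, h2⟩ := Phi_rho_of_rk f hf i
  rw [h2]
  constructor
  · intro h3
    cases b
    · exact ⟨l, h1⟩
    · exfalso
      rw [if_pos rfl] at h3
      rw [Nat.even_iff] at h3
      omega
  · rintro ⟨l', h3⟩
    rw [h3] at h1
    have h4 := (rhoP f hf).injective h1
    have h5 : b = false := (Prod.ext_iff.1 h4).2.symm
    rw [h5]
    rw [Nat.even_iff]
    simp

lemma Phi_trv (h : Mod ch n R V) (A B : Finset (E a)) (v : ZMod 3) :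
    trv n R (V (Pt.p3 A B v)) = true ↔ ∀ l, (rhoP (vel V) h.vel_inj (l, false) ∈ B ↔
      ¬ rhoP (vel V) h.vel_inj (l, true) ∈ B) := by
  unfold trv
  rw [allB_iff]
  constructor
  · intro H l
    have h1 := H (V (Pt.el (rhoP (vel V) h.vel_inj (l, false)))) (h.lt _)
    rw [allB_iff] at h1
    have h2 := h1 (V (Pt.el (rhoP (vel V) h.vel_inj (l, true)))) (h.lt _)
    have e1 : R 0 (V (Pt.el (rhoP (vel V) h.vel_inj (l, false))))
      (V (Pt.el (rhoP (vel V) h.vel_inj (l, false))))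
      (V (Pt.el (rhoP (vel V) h.vel_inj (l, false)))) = true := (h.r0 _).2 ⟨_, rfl⟩
    have e2 : R 0 (V (Pt.el (rhoP (vel V) h.vel_inj (l, true))))
      (V (Pt.el (rhoP (vel V) h.vel_inj (l, true))))
      (V (Pt.el (rhoP (vel V) h.vel_inj (l, true)))) = true := (h.r0 _).2 ⟨_, rfl⟩
    have e3 : evn (rk n R (V (Pt.el (rhoP (vel V) h.vel_inj (l, false))))) = true := by
      rw [h.rk_eq, Phi_even (vel V) h.vel_inj]; exact ⟨l, rfl⟩
    have e4 : decide (rk n R (V (Pt.el (rhoP (vel V) h.vel_inj (l, true)))) =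
        rk n R (V (Pt.el (rhoP (vel V) h.vel_inj (l, false)))) + 1) = true := by
      rw [decide_eq_true_iff, h.rk_eq, h.rk_eq, rkN_rhoP, rkN_rhoP]
      simp
    rw [e1, e2, e3, e4] at h2
    simp only [Bool.and_true, Bool.not_true, Bool.false_or] at h2
    have h5 := Phi_r10e h (rhoP (vel V) h.vel_inj (l, false)) A B v
    have h6 := Phi_r10e h (rhoP (vel V) h.vel_inj (l, true)) A B v
    rw [← h5, ← h6]
    cases hx : R 10 (V (Pt.el (rhoP (vel V) h.vel_inj (l, false)))) (V (Pt.p3 A B v))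
      (V (Pt.p3 A B v)) <;>
    cases hy : R 10 (V (Pt.el (rhoP (vel V) h.vel_inj (l, true)))) (V (Pt.p3 A B v))
      (V (Pt.p3 A B v)) <;> rw [hx, hy] at h2 <;> simp_all
  · intro H x _
    rw [allB_iff]
    intro y _
    cases hc : (R 0 x x x && (R 0 y y y && (evn (rk n R x) && decide (rk n R y = rk n R x + 1))))
    · simp
    · rw [Bool.and_eq_true, Bool.and_eq_true, Bool.and_eq_true, decide_eq_true_iff] at hc
      obtain ⟨h1, h2, h3, h4⟩ := hc
      obtain ⟨i, rfl⟩ := (h.r0 _).1 h1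
      obtain ⟨j, rfl⟩ := (h.r0 _).1 h2
      rw [h.rk_eq, Phi_even (vel V) h.vel_inj] at h3
      obtain ⟨l, rfl⟩ := h3
      rw [h.rk_eq, h.rk_eq, rkN_rhoP] at h4
      have h5 : j = rhoP (vel V) h.vel_inj (l, true) := by
        apply Phi_rk_inj (vel V) h.vel_inj
        rw [h4, rkN_rhoP]; simp
      subst h5
      have h5 := Phi_r10e h (rhoP (vel V) h.vel_inj (l, false)) A B v
      have h6 := Phi_r10e h (rhoP (vel V) h.vel_inj (l, true)) A B v
      have h7 := H l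
      rw [← h5, ← h6] at h7
      cases hx : R 10 (V (Pt.el (rhoP (vel V) h.vel_inj (l, false)))) (V (Pt.p3 A B v))
        (V (Pt.p3 A B v)) <;>
      cases hy : R 10 (V (Pt.el (rhoP (vel V) h.vel_inj (l, true)))) (V (Pt.p3 A B v))
        (V (Pt.p3 A B v)) <;> simp_all

lemma Phi_mem_im (ρ : Equiv.Perm (E a)) (β : Fin a → Bool) (l : Fin a) (b : Bool) :
    ρ (l, b) ∈ im ρ (Tr β) ↔ β l = b := by
  rw [apply_mem_im, mem_Tr]

lemma Phi_trv' (h : Mod ch n R V) (A B : Finset (E a)) (v : ZMod 3) :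
    trv n R (V (Pt.p3 A B v)) = true ↔ ∃ β, B = im (rhoP (vel V) h.vel_inj) (Tr β) := by
  rw [Phi_trv h]
  constructor
  · intro H
    refine ⟨fun l => decide (rhoP (vel V) h.vel_inj (l, true) ∈ B), ?_⟩
    ext j
    obtain ⟨⟨l, b⟩, rfl⟩ := (rhoP (vel V) h.vel_inj).surjective j
    rw [Phi_mem_im]
    cases b
    · rw [H l, decide_eq_false_iff_not]
    · rw [decide_eq_true_iff]
  · rintro ⟨β, rfl⟩ l
    rw [Phi_mem_im, Phi_mem_im]
    simp

/-- the chosen point over a transversal -/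
noncomputable def Phi_q (V : Pt a → ℕ) (w : Finset (E a) → ZMod 3) (ρ : Equiv.Perm (E a))
    (β : Fin a → Bool) : ℕ :=
  V (Pt.p3 ∅ (im ρ (Tr β)) (X3 ∅ (im ρ (Tr β)) w))

lemma Phi_q_inj (h : Mod ch n R V) (w : Finset (E a) → ZMod 3) (ρ : Equiv.Perm (E a)) :
    Function.Injective (Phi_q V w ρ) := by
  intro β β' hb
  have h1 := h.inj hb
  injection h1 with h2 h3 h4
  funext l
  have h5 := Phi_mem_im ρ β' l (β l)
  rw [← h3, Phi_mem_im] at h5
  exact (h5.1 rfl).symm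

lemma Phi_mem_trs (h : Mod ch n R V) {w : Finset (E a) → ZMod 3}
    (hs : ∀ x, x ∈ S3 n R → ∃ A B, x = V (Pt.p3 A B (X3 A B w)))
    (hc : ∀ A B : Finset (E a), Disjoint A B → V (Pt.p3 A B (X3 A B w)) ∈ S3 n R) (x : ℕ) :
    x ∈ trs n R ↔ ∃ β, x = Phi_q V w (rhoP (vel V) h.vel_inj) β := by
  unfold trs
  rw [List.mem_filter, Bool.and_eq_true]
  constructor
  · rintro ⟨h1, h2, h3⟩
    obtain ⟨A, B, rfl⟩ := hs x h1
    rw [Phi_emp h] at h2
    rw [Phi_trv' h] at h3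
    obtain ⟨β, hβ⟩ := h3
    exact ⟨β, by rw [h2, hβ]; rfl⟩
  · rintro ⟨β, rfl⟩
    unfold Phi_q
    refine ⟨hc _ _ (Finset.disjoint_empty_left _), ?_, ?_⟩
    · rw [Phi_emp h]
    · rw [Phi_trv' h]; exact ⟨β, rfl⟩

lemma Phi_evs (h : Mod ch n R V) (β : Fin a → Bool) (v : ZMod 3) :
    evs n R (V (Pt.p3 ∅ (im (rhoP (vel V) h.vel_inj) (Tr β)) v)) =
      (univ.filter (fun l => β l = false)).card := by
  unfold evs
  refine length_filter_range n (fun l : Fin a => V (Pt.el (rhoP (vel V) h.vel_inj (l, false))))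
    ?_ (fun i => h.lt _) _ _ fun x _ => ?_
  · intro l l' hl
    have h1 := h.inj hl
    injection h1 with h2
    exact (Prod.ext_iff.1 ((rhoP (vel V) h.vel_inj).injective h2)).1
  · rw [Bool.and_eq_true, Bool.and_eq_true]
    constructor
    · rintro ⟨h1, h2, h3⟩
      obtain ⟨i, rfl⟩ := (h.r0 _).1 h1
      rw [h.rk_eq, Phi_even (vel V) h.vel_inj] at h2
      obtain ⟨l, rfl⟩ := h2
      rw [Phi_r10e h, Phi_mem_im] at h3
      exact ⟨l, rfl, h3⟩
    · rintro ⟨l, rfl, h3⟩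
      refine ⟨(h.r0 _).2 ⟨_, rfl⟩, ?_, ?_⟩
      · rw [h.rk_eq, Phi_even (vel V) h.vel_inj]; exact ⟨l, rfl⟩
      · rw [Phi_r10e h, Phi_mem_im]; exact h3

lemma Phi_sg (β : Fin a → Bool) :
    sg β = if evn (univ.filter (fun l => β l = false)).card then 1 else -1 := by
  have h1 : sg β = (-1) ^ (univ.filter (fun l => β l = false)).card := by
    unfold sg
    rw [← Finset.prod_const, Finset.prod_filter]
    refine Finset.prod_congr rfl fun l _ => ?_
    cases β l <;> simp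
  rw [h1]
  by_cases he : evn (univ.filter (fun l => β l = false)).card = true
  · rw [if_pos he, (evn_iff.1 he).neg_one_pow]
  · rw [if_neg he, evn_iff] at *
    rw [Nat.not_even_iff_odd] at he
    exact he.neg_one_pow

lemma Phi_three : ∀ v u : ZMod 3, ¬ v = u → ¬ v + 1 = u → ((2 : ℕ) : ZMod 3) = u - v := by
  decide

lemma Phi_cv (h : Mod ch n R V) (ω : Finset (E a)) (hω : ω.card = a) (v : ZMod 3) :
    ((cv n R (V (Pt.p3 ∅ ω v)) : ℕ) : ZMod 3) = cc ω - v := by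
  have h14 : ∀ v', R 14 (V (Pt.p3 ∅ ω v')) (V (Pt.p3 ∅ ω v')) (V (Pt.p3 ∅ ω v')) = true ↔
      v' = cc ω := by
    intro v'
    rw [h.r14]
    constructor
    · rintro ⟨ω', -, h2⟩
      have h2' := h.inj h2
      injection h2' with h4 h5 h6
      rw [h6, h5]
    · intro hv
      exact ⟨ω, hω, by rw [hv]⟩
  have hex : exB n (fun q => R 12 (V (Pt.p3 ∅ ω v)) q q && R 14 q q q) = true ↔
      v + 1 = cc ω := by
    rw [exB_iff]
    constructor
    · rintro ⟨x, -, hx⟩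
      rw [Bool.and_eq_true, h.r12] at hx
      obtain ⟨⟨A, B, v', h1, rfl⟩, h3⟩ := hx
      have h1' := h.inj h1
      injection h1' with h4 h5 h6
      subst h4; subst h5; subst h6
      exact (h14 _).1 h3
    · intro hv
      refine ⟨V (Pt.p3 ∅ ω (v + 1)), h.lt _, ?_⟩
      rw [Bool.and_eq_true, h14]
      exact ⟨(h.r12 _ _).2 ⟨_, _, _, rfl, rfl⟩, hv⟩
  unfold cv
  by_cases c1 : R 14 (V (Pt.p3 ∅ ω v)) (V (Pt.p3 ∅ ω v)) (V (Pt.p3 ∅ ω v)) = true
  · rw [if_pos c1, (h14 v).1 c1]; simp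
  · rw [if_neg c1]
    by_cases c2 : exB n (fun q => R 12 (V (Pt.p3 ∅ ω v)) q q && R 14 q q q) = true
    · rw [if_pos c2, ← hex.1 c2]
      push_cast; ring
    · rw [if_neg c2]
      rw [h14] at c1
      rw [hex] at c2
      exact Phi_three v (cc ω) c1 c2

theorem Phi_eq (h : Mod ch n R V) {w : Finset (E a) → ZMod 3}
    (hs : ∀ x, x ∈ S3 n R → ∃ A B, x = V (Pt.p3 A B (X3 A B w)))
    (hc : ∀ A B : Finset (E a), Disjoint A B → V (Pt.p3 A B (X3 A B w)) ∈ S3 n R) :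
    (Phi n R : ZMod 3) = Lam (fun ω => cc (im (rhoP (vel V) h.vel_inj) ω) -
      X3 ∅ (im (rhoP (vel V) h.vel_inj) ω) w) := by
  unfold Phi
  have hnd : (trs n R).Nodup := by
    unfold trs S3
    exact List.Nodup.filter _ (nodup_clo _ _ _)
  have hfs : (trs n R).toFinset = univ.image (Phi_q V w (rhoP (vel V) h.vel_inj)) := by
    ext x
    rw [List.mem_toFinset, Phi_mem_trs h hs hc, Finset.mem_image]
    constructor
    · rintro ⟨β, rfl⟩; exact ⟨β, Finset.mem_univ _, rfl⟩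
    · rintro ⟨β, -, rfl⟩; exact ⟨β, rfl⟩
  rw [← List.sum_toFinset _ hnd, hfs, Finset.sum_image (fun β _ β' _ hb => Phi_q_inj h w _ hb),
    Nat.cast_sum]
  unfold Lam
  refine Finset.sum_congr rfl fun β _ => ?_
  have h1 := Phi_cv h (im (rhoP (vel V) h.vel_inj) (Tr β)) (by rw [card_im, card_Tr])
    (X3 ∅ (im (rhoP (vel V) h.vel_inj) (Tr β)) w)
  beta_reduce
  rw [← h1, Phi_sg]
  unfold Phi_q
  rw [Phi_evs h]
  split_ifs
  · rw [one_mul]
  · push_cast
    have h3 : (3 : ZMod 3) = 0 := by decide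
    linear_combination (cv n R (V (Pt.p3 ∅ (im (rhoP (vel V) h.vel_inj) (Tr β))
      (X3 ∅ (im (rhoP (vel V) h.vel_inj) (Tr β)) w))) : ZMod 3) * h3

theorem Phi_val (h : Mod ch n R V) {w : Finset (E a) → ZMod 3}
    (hw : ∀ A : Finset (E a), A.card = a → w A = 0)
    (hs : ∀ x, x ∈ S3 n R → ∃ A B, x = V (Pt.p3 A B (X3 A B w)))
    (hc : ∀ A B : Finset (E a), Disjoint A B → V (Pt.p3 A B (X3 A B w)) ∈ S3 n R) :
    (Phi n R : ZMod 3) = sgn3 (rhoP (vel V) h.vel_inj) * 2 ^ a := by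
  rw [Phi_eq h hs hc]
  obtain ⟨ρ, hρ⟩ : ∃ ρ, ρ = rhoP (vel V) h.vel_inj := ⟨_, rfl⟩
  rw [← hρ]
  have hN : (fun ω => X3 ∅ ω w) ∈ NN a := ⟨w, hw, fun _ _ => rfl⟩
  have h1 := Lam_NN (NN_comp hN ρ)
  have h2 := Lam_NN (fact2 ρ)
  have h3 : Lam (comp ρ cc - sgn3 ρ • cc) = Lam (comp ρ cc) - sgn3 ρ * Lam (cc (a := a)) := by
    unfold Lam
    rw [Finset.mul_sum, ← Finset.sum_sub_distrib]
    refine Finset.sum_congr rfl fun β _ => ?_
    simp only [Pi.sub_apply, Pi.smul_apply, smul_eq_mul]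
    ring
  rw [h3, Lam_cc] at h2
  have h4 : Lam (fun ω => cc (im ρ ω) - X3 ∅ (im ρ ω) w) =
      Lam (comp ρ cc) - Lam (comp ρ (fun ω => X3 ∅ ω w)) := by
    unfold Lam
    rw [← Finset.sum_sub_distrib]
    refine Finset.sum_congr rfl fun β _ => ?_
    simp only [comp]
    ring
  rw [h4, h1, sub_zero]
  exact sub_eq_zero.1 h2

end Pool.Agent.LWP
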