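import Pool.Agent.LWP.L2
import Pool.Agent.LWP.L3
import Pool.Agent.LWP.Phi

/-!
# The output of the algorithm
-/

set_option autoImplicit false

namespace Pool.Agent.LWP

open Finset Classical Pool.Agent.CoWL

variable {a n : ℕ} {ch : E a → ZMod 2} {R : ℕ → ℕ → ℕ → ℕ → Bool} {V : Pt a → ℕ}

/-- the output as a function of `a` and of the sum of the charges -/
noncomputable def outF (a : ℕ) (s : ZMod 2) : List Bool :=
  decide (s + eps0 a + a = 0) :: List.replicate (2 * a) true

lemma outF_inj {a a' : ℕ} {s s' : ZMod 2} (h : outF a s = outF a' s') : a = a' ∧ s = s' := by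
  unfold outF at h
  rw [List.cons.injEq] at h
  have h1 : a = a' := by
    have := congrArg List.length h.2
    simp only [List.length_replicate] at this
    omega
  subst h1
  refine ⟨rfl, ?_⟩
  have h2 := h.1
  rw [decide_eq_decide] at h2
  generalize eps0 a = e at h2
  generalize (a : ZMod 2) = b at h2
  have h3 : (0 : ZMod 2) = 0 := rfl
  have key : ∀ s s' e b : ZMod 2, (s + e + b = 0 ↔ s' + e + b = 0) → s = s' := by decide
  exact key _ _ _ _ h2

lemma sgn_iff (u : ℤˣ) (a : ℕ) :
    ((u : ℤ) : ZMod 3) * 2 ^ a = 2 ↔ mu u + (a : ZMod 2) = 1 := by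
  have h4 : (2 : ZMod 3) ^ 2 = 1 := by decide
  obtain ⟨m, hm | hm⟩ := Nat.even_or_odd' a
  · have h1 : (2 : ZMod 3) ^ a = 1 := by rw [hm, pow_mul, h4, one_pow]
    have h2 : (a : ZMod 2) = 0 := by
      rw [ZMod.natCast_eq_zero_iff_even, hm]
      exact even_two_mul m
    rw [h1, h2]
    revert u
    decide
  · have h1 : (2 : ZMod 3) ^ a = 2 := by rw [hm, pow_succ, pow_mul, h4, one_pow, one_mul]
    have h2 : (a : ZMod 2) = 1 := by
      rw [hm]
      push_cast
      have h3 : (2 : ZMod 2) = 0 := by decide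
      rw [h3, zero_mul, zero_add]
    rw [h1, h2]
    revert u
    decide

theorem out_eq (h : Mod ch n R V) : out n R = outF a (∑ i, ch i) := by
  unfold out outF
  rw [List.cons.injEq]
  constructor
  · have h1 := T2_eq h
    obtain ⟨w, hw, hs, hc⟩ := S3_spec h
    have h2 := Phi_val h hw hs hc
    have h3 := mu_pi_rho (vel V) h.vel_inj
    have h4 : evn (T2 n R) = decide (∑ i, ch i + mu (Equiv.Perm.sign (piP (vel V) h.vel_inj)) = 0) := by
      rw [Bool.eq_iff_iff, evn_iff, decide_eq_true_iff, ← h1]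
      exact (ZMod.natCast_eq_zero_iff_even).symm
    have h5 : two3 (Phi n R) = decide (mu (Equiv.Perm.sign (rhoP (vel V) h.vel_inj)) + (a : ZMod 2) = 1) := by
      rw [Bool.eq_iff_iff, two3_iff, decide_eq_true_iff, h2]
      exact sgn_iff _ a
    rw [h4, h5, ← h3]
    have key : ∀ x y s b : ZMod 2, xor (decide (s + x = 0)) (decide (y + b = 1)) =
        decide (s + (x + y) + b = 0) := by decide
    exact key _ _ _ _
  · rw [List.map_const', h.els_length]

end Pool.Agent.LWP
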