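import Pool.Agent.LWP.ModL
import Pool.Agent.PebAlg.M08
import Pool.Agent.CoWL.Gadget

/-!
# Decoding the gadget graph from its adjacency matrix
-/

set_option autoImplicit false

namespace Pool.Agent.LWP

open Finset Classical Pool.Agent.CoWL
open Pool.Agent.PebAlg (side adj deg code side_code adj_code)

/-- the adjacency matrix of a graph, row by row -/
noncomputable def gcode {n : ℕ} (G : SimpleGraph (Fin n)) : List Bool :=
  code (fun i j => decide (G.Adj i j))

/-- the table of the colours: entry `l` of row `c` says whether the relation `l` holds for triples of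
colour `c` -/
noncomputable def colTab : List (List Bool) :=
  (List.finRange NC).map fun c => (List.finRange 15).map fun l =>
    decide ((Fintype.equivFin (Fin 15 → Prop)).symm c l)

private lemma Dec_getD {α : Type} {m : ℕ} (f : Fin m → α) (i : Fin m) (d : α) :
    ((List.finRange m).map f).getD i.val d = f i := by
  rw [List.getD_eq_getElem _ _ (by
    rw [List.length_map, List.length_finRange]
    exact i.isLt), List.getElem_map, List.getElem_finRange]
  rfl

private lemma Dec_colTab {a : ℕ} (ch : E a → ZMod 2) (p q r : Pt a) (l : Fin 15) :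
    (colTab.getD (kap ch p q r).val []).getD l.val false = true ↔ Rel ch l p q r := by
  unfold colTab
  rw [Dec_getD, Dec_getD, decide_eq_true_iff]
  unfold kap
  rw [Equiv.symm_apply_apply]

private lemma Dec_side {n : ℕ} (G : SimpleGraph (Fin n)) : side (gcode G) = n := side_code _

private lemma Dec_adj {n : ℕ} (G : SimpleGraph (Fin n)) (i j : Fin n) :
    adj (gcode G) i.val j.val = true ↔ G.Adj i j := by
  unfold gcode
  rw [adj_code, decide_eq_true_iff]

private lemma Dec_deg {n : ℕ} (G : SimpleGraph (Fin n)) {x u : Fin n} (h : G.Adj x u) :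
    deg (gcode G) u.val = 1 ↔ ∀ w, G.Adj u w → w = x := by
  unfold gcode
  rw [Pool.Agent.PebAlg.deg_code, Finset.card_eq_one]
  constructor
  · rintro ⟨b, hb⟩ w hw
    have h1 : w ∈ ({b} : Finset (Fin n)) := by
      rw [← hb]
      simpa using hw.symm
    have h2 : x ∈ ({b} : Finset (Fin n)) := by
      rw [← hb]
      simpa using h
    rw [Finset.mem_singleton] at h1 h2
    rw [h1, h2]
  · intro h1
    refine ⟨x, ?_⟩
    ext w
    simp only [decide_eq_true_eq, Finset.mem_filter, Finset.mem_univ, true_and,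
      Finset.mem_singleton]
    constructor
    · intro hw
      exact h1 w hw.symm
    · rintro rfl
      exact h

private lemma Dec_lf {n : ℕ} (G : SimpleGraph (Fin n)) (x : Fin n) :
    lf (gcode G) x.val = {u : Fin n | G.Adj x u ∧ ∀ w, G.Adj u w → w = x}.ncard := by
  unfold lf
  rw [Dec_side]
  have h1 : List.range n = (List.finRange n).map Fin.val := by
    rw [List.map_coe_finRange_eq_range]
  rw [h1, List.filter_map, List.length_map]
  rw [← List.toFinset_card_of_nodup ((List.nodup_finRange n).filter _),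
    ← Set.ncard_coe_finset]
  congr 1
  ext u
  simp only [List.coe_toFinset, Set.mem_ofPred_eq, List.mem_filter, List.mem_finRange, true_and,
    Function.comp_apply, Bool.and_eq_true, decide_eq_true_eq]
  constructor
  · rintro ⟨h2, h3⟩
    rw [Dec_adj] at h2
    exact ⟨h2, (Dec_deg G h2).1 h3⟩
  · rintro ⟨h2, h3⟩
    exact ⟨(Dec_adj G x u).2 h2, (Dec_deg G h2).2 h3⟩

private lemma Dec_big {n : ℕ} (G : SimpleGraph (Fin n)) (x : ℕ) (hx : n ≤ x) :
    lf (gcode G) x = 0 := by
  unfold lf
  rw [Dec_side, List.length_eq_zero_iff, List.filter_eq_nil_iff]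
  intro u _ h
  rw [Bool.and_eq_true] at h
  have h1 : adj (gcode G) x u = false := by
    unfold adj
    rw [Dec_side]
    apply List.getD_eq_default
    unfold gcode
    rw [Pool.Agent.PebAlg.length_code]
    calc n * n ≤ x * n := Nat.mul_le_mul_right n hx
      _ ≤ x * n + u := Nat.le_add_right _ _
  rw [h1] at h
  exact absurd h.1 (by simp)

section iso

variable {V : Type} {N n : ℕ} {κ : V → V → V → Fin N} {G : SimpleGraph (Fin n)}

private lemma Dec_lf_iso (e : Gr κ ≃g G) (v : GV V N) :
    lf (gcode G) (e v).val = (Lf κ v).ncard := by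
  rw [Dec_lf, ← Set.ncard_image_of_injective (Lf κ v) e.injective]
  congr 1
  ext w
  simp only [Lf, Set.mem_ofPred_eq, Set.mem_image]
  constructor
  · rintro ⟨h, h'⟩
    refine ⟨e.symm w, ⟨?_, ?_⟩, by simp⟩
    · rw [← e.map_adj_iff]; simpa using h
    · intro w' hw'
      have := h' (e w') (by rw [← e.map_adj_iff] at hw'; simpa using hw')
      exact e.injective this
  · rintro ⟨w, ⟨h, h'⟩, rfl⟩
    refine ⟨e.map_adj_iff.2 h, ?_⟩
    intro w' hw'
    have := h' (e.symm w') (by rw [← e.map_adj_iff]; simpa using hw')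
    rw [← this]; simp

private lemma Dec_lf_core (e : Gr κ ≃g G) (u : Core V) :
    lf (gcode G) (e (u, none)).val = lam κ u := by
  rw [Dec_lf_iso, ncard_Lf]

/-- a vertex with leaves is a core vertex -/
private lemma Dec_core (e : Gr κ ≃g G) (x : ℕ) (hx : lf (gcode G) x ≠ 0) :
    ∃ u : Core V, x = (e (u, none)).val ∧ lam κ u = lf (gcode G) x := by
  have hlt : x < n := by
    by_contra h
    exact hx (Dec_big G x (not_lt.1 h))
  obtain ⟨v, hv⟩ := e.surjective ⟨x, hlt⟩
  have hv' : x = (e v).val := by rw [hv]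
  rcases v with ⟨u, _ | j⟩
  · refine ⟨u, hv', ?_⟩
    rw [hv', Dec_lf_core]
  · exfalso
    apply hx
    rw [hv', Dec_lf_iso, Lf_leaf]
    simp

private lemma Dec_adj_iso (e : Gr κ ≃g G) (v w : GV V N) :
    adj (gcode G) (e v).val (e w).val = true ↔ (Gr κ).Adj v w := by
  rw [Dec_adj, e.map_adj_iff]

end iso

theorem mod_of_iso {a n : ℕ} {ch : E a → ZMod 2} {G : SimpleGraph (Fin n)}
    (e : Gr (kap ch) ≃g G) : ∃ V : Pt a → ℕ, Mod ch n (rel colTab (gcode G)) V := by
  refine ⟨fun p => (e (Sum.inl p, none)).val, ?_, ?_, ?_⟩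
  · intro p q h
    have h1 := e.injective (Fin.ext h)
    simpa using h1
  · intro p
    exact (e (Sum.inl p, none)).isLt
  · intro l x y z
    unfold rel
    rw [Dec_side]
    simp only [Bool.and_eq_true, decide_eq_true_eq, List.any_eq_true, List.mem_range]
    constructor
    · rintro ⟨hx, hy, hz, x', -, hx', axx, y', -, hy', axy, ayy, z', -, hz', ayz, azz, ht⟩
      obtain ⟨ux, rfl, lx⟩ := Dec_core e x (by rw [hx]; norm_num)
      obtain ⟨uy, rfl, ly⟩ := Dec_core e y (by rw [hy]; norm_num)
      obtain ⟨uz, rfl, lz⟩ := Dec_core e z (by rw [hz]; norm_num)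
      obtain ⟨p, rfl⟩ := lam_inl (kap ch) (u := ux) (by rw [lx, hx])
      obtain ⟨q, rfl⟩ := lam_inl (kap ch) (u := uy) (by rw [ly, hy])
      obtain ⟨r, rfl⟩ := lam_inl (kap ch) (u := uz) (by rw [lz, hz])
      obtain ⟨u0, rfl, l0⟩ := Dec_core e x' (by rw [hx']; norm_num)
      obtain ⟨u1, rfl, l1⟩ := Dec_core e y' (by rw [hy']; norm_num)
      obtain ⟨u2, rfl, l2⟩ := Dec_core e z' (by omega)
      obtain ⟨t0, rfl⟩ := lam_inr0 (kap ch) (u := u0) (by rw [l0, hx'])
      obtain ⟨t1, rfl⟩ := lam_inr1 (kap ch) (u := u1) (by rw [l1, hy'])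
      obtain ⟨t2, rfl, hc⟩ := lam_inr2 (kap ch) (u := u2)
        (c := lf (gcode G) (e (u2, none)).val - 5) (by rw [l2]; omega)
      rw [Dec_adj_iso, adj_pt] at axx ayy azz
      rw [Dec_adj_iso, adj_01] at axy
      rw [Dec_adj_iso, adj_12] at ayz
      subst axy
      subst ayz
      rw [← hc, Dec_colTab] at ht
      refine ⟨p, q, r, rfl, rfl, rfl, ?_⟩
      rw [axx, ayy, azz]
      exact ht
    · rintro ⟨p, q, r, rfl, rfl, rfl, h⟩
      refine ⟨Dec_lf_core e _, Dec_lf_core e _, Dec_lf_core e _,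
        (e (Sum.inr ((p, q, r), 0), none)).val, Fin.isLt _, Dec_lf_core e _,
        (Dec_adj_iso e _ _).2 ((adj_pt _ _ _ _).2 rfl),
        (e (Sum.inr ((p, q, r), 1), none)).val, Fin.isLt _, Dec_lf_core e _,
        (Dec_adj_iso e _ _).2 ((adj_01 _ _ _).2 rfl),
        (Dec_adj_iso e _ _).2 ((adj_pt _ _ _ _).2 rfl),
        (e (Sum.inr ((p, q, r), 2), none)).val, Fin.isLt _, ?_,
        (Dec_adj_iso e _ _).2 ((adj_12 _ _ _).2 rfl),
        (Dec_adj_iso e _ _).2 ((adj_pt _ _ _ _).2 rfl), ?_⟩
      · rw [Dec_lf_core]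
        show 5 ≤ 5 + _
        omega
      · rw [Dec_lf_core]
        have h1 : lam (kap ch) (Sum.inr ((p, q, r), 2)) - 5 = (kap ch p q r).val := by
          show 5 + (kap ch p q r).val - 5 = _
          omega
        rw [h1, Dec_colTab]
        exact h

end Pool.Agent.LWP
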