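import Pool.Agent.LWP.ModL
import Pool.Agent.CoWL.Gadget
import Pool.Agent.CoWL.BaseForth

/-!
# Isomorphic gadget graphs
-/

set_option autoImplicit false

namespace Pool.Agent.LWP

open Finset Classical Pool.Agent.CoWL

private theorem IsoK_nod {a : ℕ} {ch ch' : E a → ZMod 2} (h : ∑ i, ch i = ∑ i, ch' i) :
    ∃ x : E a → E a → ZMod 2, Lnk 1 x ∧ ∀ i, Nod ch ch' 1 x i := by
  obtain ⟨y, hy⟩ := exists_lnk (1 : Equiv.Perm (E a))
  rcases isEmpty_or_nonempty (E a) with he | ⟨⟨k⟩⟩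
  · exact ⟨y, hy, fun i => he.elim i⟩
  obtain ⟨x', h1, h2, -⟩ := lnk_fix (ch := ch) (ch' := ch') hy ∅ (univ.erase k)
    (fun i hi => absurd hi (by simp)) (k := k) (by simp)
  refine ⟨x', h1, fun i => ?_⟩
  by_cases hik : i = k
  · subst hik
    have h4 := parity h1
    rw [if_pos (by simp), ← Finset.add_sum_erase _ _ (Finset.mem_univ i)] at h4
    have h5 : ∑ j ∈ univ.erase i, P2 x' j (univ.erase j) =
        ∑ j ∈ univ.erase i, (ch' j + ch j) :=
      Finset.sum_congr rfl fun j hj => h2 j (Finset.mem_union_right _ hj)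
    have h6 : ∑ j, (ch' j + ch j) = 0 := by
      rw [Finset.sum_add_distrib, h]
      exact CharTwo.add_self_eq_zero _
    rw [← Finset.add_sum_erase _ _ (Finset.mem_univ i)] at h6
    rw [h5] at h4
    unfold Nod
    rw [Equiv.Perm.one_apply]
    linear_combination h4 - h6
  · exact h2 i (Finset.mem_union_right _ (by simp [hik]))

theorem iso_of_sum {a : ℕ} {ch ch' : E a → ZMod 2} (h : ∑ i, ch i = ∑ i, ch' i) :
    Nonempty (Gr (kap ch) ≃g Gr (kap ch')) := by
  obtain ⟨x, hx, hn⟩ := IsoK_nod h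
  have hg : Good ch ch' univ (⟨1, x, 0⟩ : Gd a) := by
    refine ⟨hx, fun i _ _ _ => hn i, 1, ?_, Or.inl rfl, 0, ⟨fun _ _ => rfl, fun ω _ => ?_⟩,
      fun _ _ _ _ => rfl⟩
    · intro p _
      cases p <;> simp [fixP]
    · simp [X3]
  refine ⟨⟨hat NC (phi (⟨1, x, 0⟩ : Gd a)), ?_⟩⟩
  intro w w'
  exact (hat_adj (phi (⟨1, x, 0⟩ : Gd a)) univ
    (fun p hp q hq r hr => hg.col hp hq hr) (subset_univ _) (subset_univ _)).symm

end Pool.Agent.LWP
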