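import Pool.Agent.LWP.Alg

/-!
# The algorithm runs in polynomial time
-/

set_option autoImplicit false

namespace Pool.Agent.LWP

open Pool.Agent.Lib.PT
open Pool.Agent.PebAlg (side adj deg)

variable {α : Type*} [Enc α]

/-! ### Decoding -/

private theorem Poly_side {f : α → List Bool} (hf : PolyTime f) :
    PolyTime (fun a => side (f a)) := Pool.Agent.PebAlg.polyTime_side hf

private theorem Poly_adj {f : α → List Bool} {i j : α → ℕ} (hf : PolyTime f) (hi : PolyTime i)
    (hj : PolyTime j) : PolyTime (fun a => adj (f a) (i a) (j a)) :=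
  Pool.Agent.PebAlg.polyTime_adj hf hi hj

private theorem Poly_deg {f : α → List Bool} {v : α → ℕ} (hf : PolyTime f) (hv : PolyTime v) :
    PolyTime (fun x => deg (f x) (v x)) := by
  unfold deg
  exact (PolyTime.filter (f := fun (x : α) (u : ℕ) => adj (f x) u (v x)) (Poly_side hf).range
    (Poly_adj (hf.comp PolyTime.id.fst) PolyTime.id.snd (hv.comp PolyTime.id.fst))).length

private theorem Poly_lf {f : α → List Bool} {v : α → ℕ} (hf : PolyTime f) (hv : PolyTime v) :
    PolyTime (fun x => lf (f x) (v x)) := by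
  unfold lf
  exact (PolyTime.filter (f := fun (x : α) (u : ℕ) => adj (f x) (v x) u && decide (deg (f x) u = 1))
    (Poly_side hf).range
    ((Poly_adj (hf.comp PolyTime.id.fst) (hv.comp PolyTime.id.fst) PolyTime.id.snd).and
      ((Poly_deg (hf.comp PolyTime.id.fst) PolyTime.id.snd).eqNat (PolyTime.const 1)))).length

private theorem Poly_exB {n : α → ℕ} {P : α → ℕ → Bool} (hn : PolyTime n)
    (hP : PolyTime (fun q : α × ℕ => P q.1 q.2)) : PolyTime (fun x => exB (n x) (P x)) := by
  unfold exB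
  exact PolyTime.any hn.range hP

private theorem Poly_allB {n : α → ℕ} {P : α → ℕ → Bool} (hn : PolyTime n)
    (hP : PolyTime (fun q : α × ℕ => P q.1 q.2)) : PolyTime (fun x => allB (n x) (P x)) := by
  unfold allB
  exact PolyTime.all hn.range hP

theorem polyTime_rel (tab : List (List Bool)) {f : α → List Bool} {l p q r : α → ℕ}
    (hf : PolyTime f) (hl : PolyTime l) (hp : PolyTime p) (hq : PolyTime q) (hr : PolyTime r) :
    PolyTime (fun x => rel tab (f x) (l x) (p x) (q x) (r x)) := by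
  unfold rel
  have f1 : PolyTime (fun c : α × ℕ => f c.1) := hf.comp PolyTime.id.fst
  have f2 : PolyTime (fun c : (α × ℕ) × ℕ => f c.1.1) := f1.comp PolyTime.id.fst
  have f3 : PolyTime (fun c : ((α × ℕ) × ℕ) × ℕ => f c.1.1.1) := f2.comp PolyTime.id.fst
  have l3 : PolyTime (fun c : ((α × ℕ) × ℕ) × ℕ => l c.1.1.1) :=
    hl.comp PolyTime.id.fst.fst.fst
  have p1 : PolyTime (fun c : α × ℕ => p c.1) := hp.comp PolyTime.id.fst
  have q2 : PolyTime (fun c : (α × ℕ) × ℕ => q c.1.1) := hq.comp PolyTime.id.fst.fst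
  have r3 : PolyTime (fun c : ((α × ℕ) × ℕ) × ℕ => r c.1.1.1) :=
    hr.comp PolyTime.id.fst.fst.fst
  have h3 : PolyTime (fun c : ((α × ℕ) × ℕ) × ℕ => decide (5 ≤ lf (f c.1.1.1) c.2) &&
      (adj (f c.1.1.1) c.1.2 c.2 && (adj (f c.1.1.1) (r c.1.1.1) c.2 &&
        (tab.getD (lf (f c.1.1.1) c.2 - 5) []).getD (l c.1.1.1) false))) :=
    ((PolyTime.const 5).le (Poly_lf f3 PolyTime.id.snd)).and
      ((Poly_adj f3 PolyTime.id.fst.snd PolyTime.id.snd).and
        ((Poly_adj f3 r3 PolyTime.id.snd).and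
          (PolyTime.getD (PolyTime.getD (PolyTime.const tab)
            ((Poly_lf f3 PolyTime.id.snd).sub (PolyTime.const 5)) (PolyTime.const ([] : List Bool)))
            l3 (PolyTime.const false))))
  have h2 : PolyTime (fun c : (α × ℕ) × ℕ => decide (lf (f c.1.1) c.2 = 4) &&
      (adj (f c.1.1) c.1.2 c.2 && (adj (f c.1.1) (q c.1.1) c.2 &&
        (List.range (side (f c.1.1))).any (fun z => decide (5 ≤ lf (f c.1.1) z) &&
          (adj (f c.1.1) c.2 z && (adj (f c.1.1) (r c.1.1) z &&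
            (tab.getD (lf (f c.1.1) z - 5) []).getD (l c.1.1) false)))))) :=
    ((Poly_lf f2 PolyTime.id.snd).eqNat (PolyTime.const 4)).and
      ((Poly_adj f2 PolyTime.id.fst.snd PolyTime.id.snd).and
        ((Poly_adj f2 q2 PolyTime.id.snd).and (PolyTime.any (Poly_side f2).range h3)))
  have h1 : PolyTime (fun c : α × ℕ => decide (lf (f c.1) c.2 = 3) && (adj (f c.1) (p c.1) c.2 &&
      (List.range (side (f c.1))).any (fun y => decide (lf (f c.1) y = 4) &&
        (adj (f c.1) c.2 y && (adj (f c.1) (q c.1) y &&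
        (List.range (side (f c.1))).any (fun z => decide (5 ≤ lf (f c.1) z) &&
          (adj (f c.1) y z && (adj (f c.1) (r c.1) z &&
            (tab.getD (lf (f c.1) z - 5) []).getD (l c.1) false)))))))) :=
    ((Poly_lf f1 PolyTime.id.snd).eqNat (PolyTime.const 3)).and
      ((Poly_adj f1 p1 PolyTime.id.snd).and (PolyTime.any (Poly_side f1).range h2))
  exact ((Poly_lf hf hp).eqNat (PolyTime.const 2)).and
    (((Poly_lf hf hq).eqNat (PolyTime.const 2)).and
      (((Poly_lf hf hr).eqNat (PolyTime.const 2)).and (PolyTime.any (Poly_side hf).range h1)))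

/-! ### Tools -/

private theorem Poly_memB {S : α → List ℕ} {y : α → ℕ} (hS : PolyTime S) (hy : PolyTime y) :
    PolyTime (fun x => memB (S x) (y x)) := by
  unfold memB
  exact PolyTime.any hS (PolyTime.id.snd.eqNat (hy.comp PolyTime.id.fst))

private theorem Poly_rk (tab : List (List Bool)) {f : α → List Bool} {u : α → ℕ}
    (hf : PolyTime f) (hu : PolyTime u) :
    PolyTime (fun x => rk (side (f x)) (rel tab (f x)) (u x)) := by
  unfold rk
  have f1 : PolyTime (fun c : α × ℕ => f c.1) := hf.comp PolyTime.id.fst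
  have u1 : PolyTime (fun c : α × ℕ => u c.1) := hu.comp PolyTime.id.fst
  have s1 : PolyTime (fun c : α × ℕ => c.2) := PolyTime.id.snd
  exact (PolyTime.filter
    (f := fun (x : α) (v : ℕ) => rel tab (f x) 0 v v v && decide (v < u x))
    (Poly_side hf).range ((polyTime_rel tab f1 (PolyTime.const 0) s1 s1 s1).and
      (s1.lt u1))).length

private theorem Poly_els (tab : List (List Bool)) {f : α → List Bool} (hf : PolyTime f) :
    PolyTime (fun x => els (side (f x)) (rel tab (f x))) := by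
  unfold els
  have f1 : PolyTime (fun c : α × ℕ => f c.1) := hf.comp PolyTime.id.fst
  have s1 : PolyTime (fun c : α × ℕ => c.2) := PolyTime.id.snd
  exact PolyTime.filter (f := fun (x : α) (v : ℕ) => rel tab (f x) 0 v v v)
    (Poly_side hf).range (polyTime_rel tab f1 (PolyTime.const 0) s1 s1 s1)

private theorem Poly_stp {n : α → ℕ} {T : α → ℕ → ℕ → ℕ → Bool} {S : α → List ℕ}
    (hn : PolyTime n)
    (hT : PolyTime (fun c : ((α × ℕ) × ℕ) × ℕ => T c.1.1.1 c.1.1.2 c.1.2 c.2))
    (hS : PolyTime S) : PolyTime (fun x => stp (n x) (T x) (S x)) := by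
  unfold stp
  have S1 : PolyTime (fun c : α × ℕ => S c.1) := hS.comp PolyTime.id.fst
  have S2 : PolyTime (fun c : (α × ℕ) × ℕ => S c.1.1) := S1.comp PolyTime.id.fst
  have h3 : PolyTime (fun c : ((α × ℕ) × ℕ) × ℕ => T c.1.1.1 c.1.2 c.2 c.1.1.2) :=
    hT.comp (PolyTime.pair (PolyTime.pair (PolyTime.pair PolyTime.id.fst.fst.fst
      PolyTime.id.fst.snd) PolyTime.id.snd) PolyTime.id.fst.fst.snd)
  have h2 : PolyTime (fun c : (α × ℕ) × ℕ => (S c.1.1).any (fun q => T c.1.1 c.2 q c.1.2)) :=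
    PolyTime.any S2 h3
  have h1 : PolyTime (fun c : α × ℕ => memB (S c.1) c.2 ||
      (S c.1).any (fun p => (S c.1).any (fun q => T c.1 p q c.2))) :=
    (Poly_memB S1 PolyTime.id.snd).or (PolyTime.any S1 h2)
  exact PolyTime.filter (f := fun (x : α) (r : ℕ) => memB (S x) r ||
    (S x).any (fun p => (S x).any (fun q => T x p q r))) hn.range h1

private theorem Poly_sz_filter (n : ℕ) (P : ℕ → Bool) :
    sz ((List.range n).filter P) ≤ n * (2 * n + 2) + 1 := by
  refine Pool.Agent.PebAlg.M13_sz_list ?_ ?_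
  · exact (List.length_filter_le _ _).trans (List.length_range).le
  · intro x hx
    exact List.mem_range.1 (List.mem_filter.1 hx).1

private theorem Poly_clo {n : α → ℕ} {T : α → ℕ → ℕ → ℕ → Bool} {B : α → ℕ → Bool}
    (hn : PolyTime n)
    (hT : PolyTime (fun c : ((α × ℕ) × ℕ) × ℕ => T c.1.1.1 c.1.1.2 c.1.2 c.2))
    (hB : PolyTime (fun c : α × ℕ => B c.1 c.2)) :
    PolyTime (fun x => clo (n x) (T x) (B x)) := by
  unfold clo
  have h0 : PolyTime (fun x => (List.range (n x)).filter (B x)) := PolyTime.filter hn.range hB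
  have n1 : PolyTime (fun c : α × List ℕ => n c.1) := hn.comp PolyTime.id.fst
  have T1 : PolyTime (fun c : (((α × List ℕ) × ℕ) × ℕ) × ℕ =>
      T c.1.1.1.1 c.1.1.2 c.1.2 c.2) :=
    hT.comp (PolyTime.pair (PolyTime.pair (PolyTime.pair PolyTime.id.fst.fst.fst.fst
      PolyTime.id.fst.fst.snd) PolyTime.id.fst.snd) PolyTime.id.snd)
  have h1 : PolyTime (fun c : α × List ℕ => stp (n c.1) (T c.1) c.2) :=
    Poly_stp (T := fun (c : α × List ℕ) => T c.1) n1 T1 PolyTime.id.snd
  refine PolyTime.iterate (f := fun (x : α) (S : List ℕ) => stp (n x) (T x) S) hn h0 h1 ?_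
  obtain ⟨p, hp⟩ := hn.sz_le
  refine ⟨p * (2 * p + 2) + 1, fun x i _ => ?_⟩
  have h2 : sz ((stp (n x) (T x))^[i] ((List.range (n x)).filter (B x))) ≤
      n x * (2 * n x + 2) + 1 := by
    cases i with
    | zero => exact Poly_sz_filter _ _
    | succ i =>
      rw [Function.iterate_succ_apply']
      exact Poly_sz_filter _ _
  have h3 := hp x
  rw [sz_nat] at h3
  have h4 : n x * (2 * n x + 2) ≤ p.eval (sz x) * (2 * p.eval (sz x) + 2) :=
    Nat.mul_le_mul (by omega) (by omega)
  show sz ((stp (n x) (T x))^[i] ((List.range (n x)).filter (B x))) ≤ _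
  simp only [Polynomial.eval_add, Polynomial.eval_mul, Polynomial.eval_ofNat,
    Polynomial.eval_one]
  omega

/-! ### Layer 2 -/

private theorem Poly_sing (tab : List (List Bool)) {f : α → List Bool} {i j p : α → ℕ}
    (hf : PolyTime f) (hi : PolyTime i) (hj : PolyTime j) (hp : PolyTime p) :
    PolyTime (fun x => sing (side (f x)) (rel tab (f x)) (i x) (j x) (p x)) := by
  unfold sing
  have f1 : PolyTime (fun c : α × ℕ => f c.1) := hf.comp PolyTime.id.fst
  have j1 : PolyTime (fun c : α × ℕ => j c.1) := hj.comp PolyTime.id.fst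
  have p1 : PolyTime (fun c : α × ℕ => p c.1) := hp.comp PolyTime.id.fst
  have s1 : PolyTime (fun c : α × ℕ => c.2) := PolyTime.id.snd
  have h1 : PolyTime (fun c : α × ℕ => !(rel tab (f c.1) 0 c.2 c.2 c.2) ||
      (rel tab (f c.1) 4 c.2 (p c.1) (p c.1) == decide (c.2 = j c.1))) :=
    (polyTime_rel tab f1 (PolyTime.const 0) s1 s1 s1).not.or
      ((polyTime_rel tab f1 (PolyTime.const 4) s1 p1 p1).beqBool (s1.eqNat j1))
  exact (polyTime_rel tab hf (PolyTime.const 3) hi hp hp).and (Poly_allB (Poly_side hf) h1)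

private theorem Poly_low (tab : List (List Bool)) {f : α → List Bool} {i j p : α → ℕ}
    (hf : PolyTime f) (hi : PolyTime i) (hj : PolyTime j) (hp : PolyTime p) :
    PolyTime (fun x => low (side (f x)) (rel tab (f x)) (i x) (j x) (p x)) := by
  unfold low
  have f1 : PolyTime (fun c : α × ℕ => f c.1) := hf.comp PolyTime.id.fst
  have i1 : PolyTime (fun c : α × ℕ => i c.1) := hi.comp PolyTime.id.fst
  have j1 : PolyTime (fun c : α × ℕ => j c.1) := hj.comp PolyTime.id.fst
  have p1 : PolyTime (fun c : α × ℕ => p c.1) := hp.comp PolyTime.id.fst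
  have s1 : PolyTime (fun c : α × ℕ => c.2) := PolyTime.id.snd
  have h1 : PolyTime (fun c : α × ℕ => !(decide (c.2 < p c.1)) ||
      !(sing (side (f c.1)) (rel tab (f c.1)) (i c.1) (j c.1) c.2)) :=
    (s1.lt p1).not.or (Poly_sing tab f1 i1 j1 s1).not
  exact (Poly_sing tab hf hi hj hp).and (Poly_allB (Poly_side hf) h1)

private theorem Poly_base2 (tab : List (List Bool)) {f : α → List Bool} {p : α → ℕ}
    (hf : PolyTime f) (hp : PolyTime p) :
    PolyTime (fun x => base2 (side (f x)) (rel tab (f x)) (p x)) := by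
  unfold base2
  have f1 : PolyTime (fun c : α × ℕ => f c.1) := hf.comp PolyTime.id.fst
  have f2 : PolyTime (fun c : (α × ℕ) × ℕ => f c.1.1) := f1.comp PolyTime.id.fst
  have f3 : PolyTime (fun c : ((α × ℕ) × ℕ) × ℕ => f c.1.1.1) := f2.comp PolyTime.id.fst
  have p1 : PolyTime (fun c : α × ℕ => p c.1) := hp.comp PolyTime.id.fst
  have p2 : PolyTime (fun c : (α × ℕ) × ℕ => p c.1.1) := p1.comp PolyTime.id.fst
  have p3 : PolyTime (fun c : ((α × ℕ) × ℕ) × ℕ => p c.1.1.1) := p2.comp PolyTime.id.fst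
  have i1 : PolyTime (fun c : α × ℕ => c.2) := PolyTime.id.snd
  have i2 : PolyTime (fun c : (α × ℕ) × ℕ => c.1.2) := PolyTime.id.fst.snd
  have i3 : PolyTime (fun c : ((α × ℕ) × ℕ) × ℕ => c.1.1.2) := PolyTime.id.fst.fst.snd
  have j2 : PolyTime (fun c : (α × ℕ) × ℕ => c.2) := PolyTime.id.snd
  have j3 : PolyTime (fun c : ((α × ℕ) × ℕ) × ℕ => c.1.2) := PolyTime.id.fst.snd
  have q3 : PolyTime (fun c : ((α × ℕ) × ℕ) × ℕ => c.2) := PolyTime.id.snd
  have h3 : PolyTime (fun c : ((α × ℕ) × ℕ) × ℕ =>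
      low (side (f c.1.1.1)) (rel tab (f c.1.1.1)) c.1.2 c.1.1.2 c.2 &&
        rel tab (f c.1.1.1) 7 (p c.1.1.1) c.2 c.2) :=
    (Poly_low tab f3 j3 i3 q3).and (polyTime_rel tab f3 (PolyTime.const 7) p3 q3 q3)
  have h2 : PolyTime (fun c : (α × ℕ) × ℕ => rel tab (f c.1.1) 0 c.2 c.2 c.2 &&
      (sing (side (f c.1.1)) (rel tab (f c.1.1)) c.1.2 c.2 (p c.1.1) &&
      ((decide (c.1.2 < c.2) && low (side (f c.1.1)) (rel tab (f c.1.1)) c.1.2 c.2 (p c.1.1)) ||
      (decide (c.2 < c.1.2) && exB (side (f c.1.1)) (fun q =>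
        low (side (f c.1.1)) (rel tab (f c.1.1)) c.2 c.1.2 q &&
          rel tab (f c.1.1) 7 (p c.1.1) q q))))) :=
    (polyTime_rel tab f2 (PolyTime.const 0) j2 j2 j2).and
      ((Poly_sing tab f2 i2 j2 p2).and
        (((i2.lt j2).and (Poly_low tab f2 i2 j2 p2)).or
          ((j2.lt i2).and (Poly_exB (Poly_side f2) h3))))
  have h1 : PolyTime (fun c : α × ℕ => rel tab (f c.1) 0 c.2 c.2 c.2 &&
      exB (side (f c.1)) (fun j => rel tab (f c.1) 0 j j j &&
      (sing (side (f c.1)) (rel tab (f c.1)) c.2 j (p c.1) &&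
      ((decide (c.2 < j) && low (side (f c.1)) (rel tab (f c.1)) c.2 j (p c.1)) ||
      (decide (j < c.2) && exB (side (f c.1)) (fun q =>
        low (side (f c.1)) (rel tab (f c.1)) j c.2 q &&
          rel tab (f c.1) 7 (p c.1) q q)))))) :=
    (polyTime_rel tab f1 (PolyTime.const 0) i1 i1 i1).and (Poly_exB (Poly_side f1) h2)
  exact (polyTime_rel tab hf (PolyTime.const 5) hp hp hp).or (Poly_exB (Poly_side hf) h1)

private theorem Poly_S2 (tab : List (List Bool)) {f : α → List Bool} (hf : PolyTime f) :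
    PolyTime (fun x => S2 (side (f x)) (rel tab (f x))) := by
  unfold S2
  have f1 : PolyTime (fun c : α × ℕ => f c.1) := hf.comp PolyTime.id.fst
  have f3 : PolyTime (fun c : ((α × ℕ) × ℕ) × ℕ => f c.1.1.1) :=
    hf.comp PolyTime.id.fst.fst.fst
  exact Poly_clo (T := fun x => rel tab (f x) 6)
    (B := fun x => base2 (side (f x)) (rel tab (f x))) (Poly_side hf)
    (polyTime_rel tab f3 (PolyTime.const 6) PolyTime.id.fst.fst.snd PolyTime.id.fst.snd
      PolyTime.id.snd)
    (Poly_base2 tab f1 PolyTime.id.snd)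

private theorem Poly_full (tab : List (List Bool)) {f : α → List Bool} {p : α → ℕ}
    (hf : PolyTime f) (hp : PolyTime p) :
    PolyTime (fun x => full (side (f x)) (rel tab (f x)) (p x)) := by
  unfold full
  have f1 : PolyTime (fun c : α × ℕ => f c.1) := hf.comp PolyTime.id.fst
  have f2 : PolyTime (fun c : (α × ℕ) × ℕ => f c.1.1) := f1.comp PolyTime.id.fst
  have p1 : PolyTime (fun c : α × ℕ => p c.1) := hp.comp PolyTime.id.fst
  have p2 : PolyTime (fun c : (α × ℕ) × ℕ => p c.1.1) := p1.comp PolyTime.id.fst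
  have i1 : PolyTime (fun c : α × ℕ => c.2) := PolyTime.id.snd
  have i2 : PolyTime (fun c : (α × ℕ) × ℕ => c.1.2) := PolyTime.id.fst.snd
  have e2 : PolyTime (fun c : (α × ℕ) × ℕ => c.2) := PolyTime.id.snd
  have h2 : PolyTime (fun c : (α × ℕ) × ℕ => !(rel tab (f c.1.1) 0 c.2 c.2 c.2) ||
      (rel tab (f c.1.1) 4 c.2 (p c.1.1) (p c.1.1) == !(decide (c.2 = c.1.2)))) :=
    (polyTime_rel tab f2 (PolyTime.const 0) e2 e2 e2).not.or
      ((polyTime_rel tab f2 (PolyTime.const 4) e2 p2 p2).beqBool (e2.eqNat i2).not)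
  have h1 : PolyTime (fun c : α × ℕ => rel tab (f c.1) 3 c.2 (p c.1) (p c.1) &&
      allB (side (f c.1)) (fun e => !(rel tab (f c.1) 0 e e e) ||
      (rel tab (f c.1) 4 e (p c.1) (p c.1) == !(decide (e = c.2))))) :=
    (polyTime_rel tab f1 (PolyTime.const 3) i1 p1 p1).and (Poly_allB (Poly_side f1) h2)
  exact Poly_exB (Poly_side hf) h1

private theorem Poly_T2 (tab : List (List Bool)) {f : α → List Bool} (hf : PolyTime f) :
    PolyTime (fun x => T2 (side (f x)) (rel tab (f x))) := by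
  unfold T2
  have f1 : PolyTime (fun c : α × ℕ => f c.1) := hf.comp PolyTime.id.fst
  have i1 : PolyTime (fun c : α × ℕ => c.2) := PolyTime.id.snd
  exact (PolyTime.filter (f := fun (x : α) (p : ℕ) => full (side (f x)) (rel tab (f x)) p &&
    !(rel tab (f x) 8 p p p)) (Poly_S2 tab hf) ((Poly_full tab f1 i1).and
      (polyTime_rel tab f1 (PolyTime.const 8) i1 i1 i1).not)).length

/-! ### Layer 3 -/

private theorem Poly_fib (tab : List (List Bool)) {f : α → List Bool} {p q : α → ℕ}
    (hf : PolyTime f) (hp : PolyTime p) (hq : PolyTime q) :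
    PolyTime (fun x => fib (rel tab (f x)) (p x) (q x)) := by
  unfold fib
  exact (polyTime_rel tab hf (PolyTime.const 12) hp hq hq).or
    (polyTime_rel tab hf (PolyTime.const 12) hq hp hp)

private theorem Poly_base3 (tab : List (List Bool)) {f : α → List Bool} {p : α → ℕ}
    (hf : PolyTime f) (hp : PolyTime p) :
    PolyTime (fun x => base3 (side (f x)) (rel tab (f x)) (p x)) := by
  unfold base3
  have f1 : PolyTime (fun c : α × ℕ => f c.1) := hf.comp PolyTime.id.fst
  have p1 : PolyTime (fun c : α × ℕ => p c.1) := hp.comp PolyTime.id.fst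
  have i1 : PolyTime (fun c : α × ℕ => c.2) := PolyTime.id.snd
  have h1 : PolyTime (fun c : α × ℕ => !(rel tab (f c.1) 10 c.2 (p c.1) (p c.1))) :=
    (polyTime_rel tab f1 (PolyTime.const 10) i1 p1 p1).not
  have h2 : PolyTime (fun c : α × ℕ => !(fib (rel tab (f c.1)) (p c.1) c.2 &&
      rel tab (f c.1) 13 c.2 c.2 c.2)) :=
    ((Poly_fib tab f1 p1 i1).and (polyTime_rel tab f1 (PolyTime.const 13) i1 i1 i1)).not
  have h3 : PolyTime (fun c : α × ℕ => !(fib (rel tab (f c.1)) (p c.1) c.2 &&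
      decide (c.2 < p c.1))) :=
    ((Poly_fib tab f1 p1 i1).and (i1.lt p1)).not
  exact (polyTime_rel tab hf (PolyTime.const 2) hp hp hp).and
    ((Poly_allB (Poly_side hf) h1).and
      ((polyTime_rel tab hf (PolyTime.const 13) hp hp hp).or
        ((Poly_allB (Poly_side hf) h2).and (Poly_allB (Poly_side hf) h3))))

private theorem Poly_S3 (tab : List (List Bool)) {f : α → List Bool} (hf : PolyTime f) :
    PolyTime (fun x => S3 (side (f x)) (rel tab (f x))) := by
  unfold S3
  have f1 : PolyTime (fun c : α × ℕ => f c.1) := hf.comp PolyTime.id.fst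
  have f3 : PolyTime (fun c : ((α × ℕ) × ℕ) × ℕ => f c.1.1.1) :=
    hf.comp PolyTime.id.fst.fst.fst
  exact Poly_clo (T := fun x => rel tab (f x) 11)
    (B := fun x => base3 (side (f x)) (rel tab (f x))) (Poly_side hf)
    (polyTime_rel tab f3 (PolyTime.const 11) PolyTime.id.fst.fst.snd PolyTime.id.fst.snd
      PolyTime.id.snd)
    (Poly_base3 tab f1 PolyTime.id.snd)

private theorem Poly_evn {m : α → ℕ} (hm : PolyTime m) : PolyTime (fun x => evn (m x)) := by
  unfold evn
  exact ((PolyTime.const 2).mul (Pool.Agent.PebAlg.polyTime_div hm (PolyTime.const 2))).eqNat hm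

private theorem Poly_trv (tab : List (List Bool)) {f : α → List Bool} {p : α → ℕ}
    (hf : PolyTime f) (hp : PolyTime p) :
    PolyTime (fun x => trv (side (f x)) (rel tab (f x)) (p x)) := by
  unfold trv
  have f1 : PolyTime (fun c : α × ℕ => f c.1) := hf.comp PolyTime.id.fst
  have f2 : PolyTime (fun c : (α × ℕ) × ℕ => f c.1.1) := f1.comp PolyTime.id.fst
  have p2 : PolyTime (fun c : (α × ℕ) × ℕ => p c.1.1) := hp.comp PolyTime.id.fst.fst
  have u2 : PolyTime (fun c : (α × ℕ) × ℕ => c.1.2) := PolyTime.id.fst.snd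
  have v2 : PolyTime (fun c : (α × ℕ) × ℕ => c.2) := PolyTime.id.snd
  have h2 : PolyTime (fun c : (α × ℕ) × ℕ => !(rel tab (f c.1.1) 0 c.1.2 c.1.2 c.1.2 &&
      (rel tab (f c.1.1) 0 c.2 c.2 c.2 && (evn (rk (side (f c.1.1)) (rel tab (f c.1.1)) c.1.2) &&
      decide (rk (side (f c.1.1)) (rel tab (f c.1.1)) c.2 =
        rk (side (f c.1.1)) (rel tab (f c.1.1)) c.1.2 + 1)))) ||
      xor (rel tab (f c.1.1) 10 c.1.2 (p c.1.1) (p c.1.1))
        (rel tab (f c.1.1) 10 c.2 (p c.1.1) (p c.1.1))) :=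
    (((polyTime_rel tab f2 (PolyTime.const 0) u2 u2 u2).and
      ((polyTime_rel tab f2 (PolyTime.const 0) v2 v2 v2).and
        ((Poly_evn (Poly_rk tab f2 u2)).and
          ((Poly_rk tab f2 v2).eqNat (Poly_rk tab f2 u2).succ)))).not).or
      ((polyTime_rel tab f2 (PolyTime.const 10) u2 p2 p2).xor
        (polyTime_rel tab f2 (PolyTime.const 10) v2 p2 p2))
  exact Poly_allB (Poly_side hf) (Poly_allB (Poly_side f1) h2)

private theorem Poly_trs (tab : List (List Bool)) {f : α → List Bool} (hf : PolyTime f) :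
    PolyTime (fun x => trs (side (f x)) (rel tab (f x))) := by
  unfold trs
  have f1 : PolyTime (fun c : α × ℕ => f c.1) := hf.comp PolyTime.id.fst
  have f2 : PolyTime (fun c : (α × ℕ) × ℕ => f c.1.1) := f1.comp PolyTime.id.fst
  have i1 : PolyTime (fun c : α × ℕ => c.2) := PolyTime.id.snd
  have p2 : PolyTime (fun c : (α × ℕ) × ℕ => c.1.2) := PolyTime.id.fst.snd
  have j2 : PolyTime (fun c : (α × ℕ) × ℕ => c.2) := PolyTime.id.snd
  have h2 : PolyTime (fun c : (α × ℕ) × ℕ => !(rel tab (f c.1.1) 9 c.2 c.1.2 c.1.2)) :=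
    (polyTime_rel tab f2 (PolyTime.const 9) j2 p2 p2).not
  exact PolyTime.filter (f := fun (x : α) (p : ℕ) =>
    allB (side (f x)) (fun j => !(rel tab (f x) 9 j p p)) &&
      trv (side (f x)) (rel tab (f x)) p) (Poly_S3 tab hf)
    ((Poly_allB (Poly_side f1) h2).and (Poly_trv tab f1 i1))

private theorem Poly_evs (tab : List (List Bool)) {f : α → List Bool} {p : α → ℕ}
    (hf : PolyTime f) (hp : PolyTime p) :
    PolyTime (fun x => evs (side (f x)) (rel tab (f x)) (p x)) := by
  unfold evs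
  have f1 : PolyTime (fun c : α × ℕ => f c.1) := hf.comp PolyTime.id.fst
  have p1 : PolyTime (fun c : α × ℕ => p c.1) := hp.comp PolyTime.id.fst
  have i1 : PolyTime (fun c : α × ℕ => c.2) := PolyTime.id.snd
  exact (PolyTime.filter (f := fun (x : α) (u : ℕ) => rel tab (f x) 0 u u u &&
    (evn (rk (side (f x)) (rel tab (f x)) u) && rel tab (f x) 10 u (p x) (p x)))
    (Poly_side hf).range ((polyTime_rel tab f1 (PolyTime.const 0) i1 i1 i1).and
      ((Poly_evn (Poly_rk tab f1 i1)).and
        (polyTime_rel tab f1 (PolyTime.const 10) i1 p1 p1)))).length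

private theorem Poly_cv (tab : List (List Bool)) {f : α → List Bool} {p : α → ℕ}
    (hf : PolyTime f) (hp : PolyTime p) :
    PolyTime (fun x => cv (side (f x)) (rel tab (f x)) (p x)) := by
  unfold cv
  have f1 : PolyTime (fun c : α × ℕ => f c.1) := hf.comp PolyTime.id.fst
  have p1 : PolyTime (fun c : α × ℕ => p c.1) := hp.comp PolyTime.id.fst
  have i1 : PolyTime (fun c : α × ℕ => c.2) := PolyTime.id.snd
  have h1 : PolyTime (fun c : α × ℕ => rel tab (f c.1) 12 (p c.1) c.2 c.2 &&
      rel tab (f c.1) 14 c.2 c.2 c.2) :=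
    (polyTime_rel tab f1 (PolyTime.const 12) p1 i1 i1).and
      (polyTime_rel tab f1 (PolyTime.const 14) i1 i1 i1)
  have h2 : PolyTime (fun x => exB (side (f x)) (fun q => rel tab (f x) 12 (p x) q q &&
      rel tab (f x) 14 q q q)) := Poly_exB (Poly_side hf) h1
  have h3 : PolyTime (fun x => bif rel tab (f x) 14 (p x) (p x) (p x) then 0 else
      (bif exB (side (f x)) (fun q => rel tab (f x) 12 (p x) q q && rel tab (f x) 14 q q q)
        then 1 else 2)) :=
    (polyTime_rel tab hf (PolyTime.const 14) hp hp hp).cond (PolyTime.const 0)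
      (h2.cond (PolyTime.const 1) (PolyTime.const 2))
  refine h3.congr fun x => ?_
  rw [Bool.cond_eq_ite, Bool.cond_eq_ite]

private theorem Poly_Phi (tab : List (List Bool)) {f : α → List Bool} (hf : PolyTime f) :
    PolyTime (fun x => Phi (side (f x)) (rel tab (f x))) := by
  unfold Phi
  have f1 : PolyTime (fun c : α × ℕ => f c.1) := hf.comp PolyTime.id.fst
  have i1 : PolyTime (fun c : α × ℕ => c.2) := PolyTime.id.snd
  have h1 : PolyTime (fun c : α × ℕ => bif evn (evs (side (f c.1)) (rel tab (f c.1)) c.2) then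
      cv (side (f c.1)) (rel tab (f c.1)) c.2 else
      2 * cv (side (f c.1)) (rel tab (f c.1)) c.2) :=
    (Poly_evn (Poly_evs tab f1 i1)).cond (Poly_cv tab f1 i1)
      ((PolyTime.const 2).mul (Poly_cv tab f1 i1))
  have h2 : PolyTime (fun x => ((trs (side (f x)) (rel tab (f x))).map (fun p =>
      bif evn (evs (side (f x)) (rel tab (f x)) p) then
      cv (side (f x)) (rel tab (f x)) p else
      2 * cv (side (f x)) (rel tab (f x)) p)).sum) :=
    (PolyTime.map (f := fun (x : α) (p : ℕ) =>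
      bif evn (evs (side (f x)) (rel tab (f x)) p) then
      cv (side (f x)) (rel tab (f x)) p else
      2 * cv (side (f x)) (rel tab (f x)) p) (Poly_trs tab hf) h1).sum
  refine h2.congr fun x => ?_
  simp only [Bool.cond_eq_ite]

private theorem Poly_two3 {m : α → ℕ} (hm : PolyTime m) : PolyTime (fun x => two3 (m x)) := by
  unfold two3
  exact (((PolyTime.const 3).mul (Pool.Agent.PebAlg.polyTime_div hm (PolyTime.const 3))).add
    (PolyTime.const 2)).eqNat hm

theorem polyTime_algo (tab : List (List Bool)) : PolyTime (fun w : List Bool => algo tab w) := by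
  unfold algo out
  have h : PolyTime (fun w : List Bool => w) := PolyTime.id
  exact ((Poly_evn (Poly_T2 tab h)).xor (Poly_two3 (Poly_Phi tab h))).cons
    (PolyTime.map (f := fun (_ : List Bool) (_ : ℕ) => true) (Poly_els tab h)
      (PolyTime.const true))

end Pool.Agent.LWP
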