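import Pool.Agent.LWL.Main
import Pool.Agent.CoWL.Size
import Pool.Agent.LWP.Dec
import Pool.Agent.LWP.Asm
import Pool.Agent.LWP.IsoK
import Pool.Agent.LWP.Poly
import Pool.Agent.Lib.PolyTime.ToTM2

/-!
# A class of graphs with polynomial-time isomorphism test, beyond the logic
-/

set_option autoImplicit false

namespace Pool.Agent.LWP

open Finset Classical Pool.Agent.CoWL Pool.Agent.LWL

lemma size_bound (K D : ℕ) : 18 * (5 * 4 ^ (2 * (3 * (7 * K + 1))) +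
    (D + 6 + 4 ^ (3 * (7 * K + 1))) * 4 ^ (3 * (7 * K + 1))) ≤ 2 ^ (84 * (K + 1)) * (D + 1) := by
  have h1 : (4 : ℕ) ^ (2 * (3 * (7 * K + 1))) = 4 ^ (3 * (7 * K + 1)) * 4 ^ (3 * (7 * K + 1)) := by
    rw [← pow_add]
    congr 1
    ring
  have h2 : (2 : ℕ) ^ (84 * (K + 1)) = 4 ^ (3 * (7 * K + 1)) * 4 ^ (3 * (7 * K + 1)) * 2 ^ 72 := by
    rw [show (4 : ℕ) = 2 ^ 2 by norm_num, ← pow_mul, ← pow_add, ← pow_add]
    congr 1
    ring
  have h3 : 64 ≤ 4 ^ (3 * (7 * K + 1)) := by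
    calc 64 = 4 ^ 3 := by norm_num
      _ ≤ 4 ^ (3 * (7 * K + 1)) := Nat.pow_le_pow_right (by norm_num) (by omega)
  rw [h1, h2]
  generalize (4 : ℕ) ^ (3 * (7 * K + 1)) = q at h3
  have h4 : (D + 6) * q ≤ (D + 6) * (q * q) := Nat.mul_le_mul_left _ (Nat.le_mul_of_pos_left q (by omega))
  have h5 : (D + 6 + q) * q = (D + 6) * q + q * q := by ring
  have h6 : q * q * 2 ^ 72 * (D + 1) = 2 ^ 72 * (D * (q * q)) + 2 ^ 72 * (q * q) := by ring
  have h7 : (D + 6) * (q * q) = D * (q * q) + 6 * (q * q) := by ring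
  rw [h5, h6]
  generalize q * q = r at h4 h7 ⊢
  generalize D * r = t at h7 ⊢
  omega

/-- two non-isomorphic gadget graphs with the same theory -/
theorem same_pair (K D : ℕ) : ∃ (a : ℕ) (ch ch' : E a → ZMod 2),
    Fintype.card (GV (Pt a) NC) ≤ 2 ^ (2 ^ (84 * (K + 1)) * (D + 1)) ∧
    IsEmpty (Gr (kap ch) ≃g Gr (kap ch')) ∧ SameTheory K D (Gr (kap ch)) (Gr (kap ch')) := by
  set k := 7 * K + 1 with hk
  set a := 5 * 4 ^ (2 * (3 * k)) + (D + 6 + 4 ^ (3 * k)) * 4 ^ (3 * k) with haa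
  have hp : 0 < 5 * 4 ^ (2 * (3 * k)) := by positivity
  have hp' : 0 < (D + 6 + 4 ^ (3 * k)) * 4 ^ (3 * k) := by positivity
  have ha : 5 * 4 ^ (2 * (3 * k)) < 2 * a := by omega
  have hD : (D + 6 + 4 ^ (3 * k)) * 4 ^ (3 * k) < 2 * a := by omega
  have ha0 : 0 < a := by omega
  let i0 : E a := (⟨0, ha0⟩, true)
  let ch : E a → ZMod 2 := 0
  let ch' : E a → ZMod 2 := Pi.single i0 1
  have hch : ∑ i, ch i + ∑ i, ch' i = 1 := by simp [ch, ch']
  have hch' : ∑ i, ch' i + ∑ i, ch i = 1 := by rw [add_comm]; exact hch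
  refine ⟨a, ch, ch', ?_, ⟨fun e => ?_⟩, ?_⟩
  · refine (card_GV (by omega)).trans (Nat.pow_le_pow_right (by norm_num) ?_)
    exact size_bound K D
  · obtain ⟨ψ, hψ⟩ := iso_of_gr e
    exact base_not_iso hch ψ hψ
  · let M := baseSys ch ch' hch ha
    let M' := baseSys ch' ch hch' ha
    have hi : ∀ D g, M.Good D g → ∃ g', M'.Good (D.map (M.φ g).toEmbedding) g' ∧
        M'.φ g' = (M.φ g).symm := fun D g hg => ⟨Gd.inv g, hg.inv, phi_inv g⟩
    have hi' : ∀ D g, M'.Good D g → ∃ g', M.Good (D.map (M'.φ g).toEmbedding) g' ∧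
        M.φ g' = (M'.φ g).symm := fun D g hg => ⟨Gd.inv g, hg.inv, phi_inv g⟩
    have hst : Stable k (Gr (kap ch)) (Gr (kap ch')) (M.S k) := sys_stable M M' hi hi'
    have hst' : Stable k (Gr (kap ch')) (Gr (kap ch)) (M'.S k) := sys_stable M' M hi' hi
    have hne : (M.S k).Nonempty := by
      obtain ⟨x, hx⟩ := exists_lnk (1 : Equiv.Perm (E a))
      obtain ⟨w, hw⟩ := P3_nonempty (a := a) (π := 1) (by simp)
      refine ⟨graphOn ∅ (hat NC (phi ⟨1, x, w⟩)), ∅, (⟨1, x, w⟩ : Gd a), by simp, ?_, rfl⟩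
      refine ⟨hx, ?_, 1, ?_, Or.inl rfl, w, by simpa using hw, ?_⟩ <;> simp [suppS, CoWL.Inv]
    refine sameTheory_of (k := k) hst hne (sys_ext2 M)
      (simP_base hch (by omega) ha (pb_of_stable hst))
      (isoT_of (inv_mem' M M' hi) (inv_mem' M' M hi')
        (isoH_base hch (by omega) ha hD (pb_of_stable hst) hst.forth)
        (isoH_base hch' (by omega) ha hD (pb_of_stable hst') hst'.forth)) (by omega)

/-- the class of all graphs isomorphic to a gadget graph -/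
def Cls (V : Type) (G : SimpleGraph V) : Prop :=
  ∃ (a : ℕ) (ch : E a → ZMod 2), Nonempty (Gr (kap ch) ≃g G)

lemma algo_eq {a n : ℕ} {ch : E a → ZMod 2} {G : SimpleGraph (Fin n)}
    (e : Gr (kap ch) ≃g G) : algo colTab (gcode G) = outF a (∑ i, ch i) := by
  obtain ⟨V, hV⟩ := mod_of_iso e
  have hs : Pool.Agent.PebAlg.side (gcode G) = n := Pool.Agent.PebAlg.side_code _
  unfold algo
  rw [hs]
  exact out_eq hV

theorem final : Nonempty (Turing.TM2ComputableInPolyTime (fun w : List Bool => w)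
      (fun w : List Bool => w) (fun w => algo colTab w)) ∧
    (∀ (V W : Type) (G : SimpleGraph V) (H : SimpleGraph W), Cls V G → Nonempty (G ≃g H) →
      Cls W H) ∧
    (∀ (n m : ℕ) (G : SimpleGraph (Fin n)) (H : SimpleGraph (Fin m)), Cls _ G → Cls _ H →
      (algo colTab (gcode G) = algo colTab (gcode H) ↔ Nonempty (G ≃g H))) ∧
    ∀ K D : ℕ, ∃ (V : Type) (_ : Fintype V) (G H : SimpleGraph V), Cls V G ∧ Cls V H ∧
      Fintype.card V ≤ 2 ^ (2 ^ (84 * (K + 1)) * (D + 1)) ∧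
      IsEmpty (G ≃g H) ∧ SameTheory K D G H := by
  refine ⟨Pool.Agent.Lib.PT.ToTM2.polyTime_toTM2 _ (polyTime_algo colTab), ?_, ?_, ?_⟩
  · rintro V W G H ⟨a, ch, ⟨e⟩⟩ ⟨f⟩
    exact ⟨a, ch, ⟨e.trans f⟩⟩
  · rintro n m G H ⟨a, ch, ⟨e⟩⟩ ⟨a', ch', ⟨e'⟩⟩
    constructor
    · intro h
      rw [algo_eq e, algo_eq e'] at h
      obtain ⟨h1, h2⟩ := outF_inj h
      subst h1
      obtain ⟨g⟩ := iso_of_sum h2
      exact ⟨(e.symm.trans g).trans e'⟩
    · rintro ⟨f⟩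
      rw [algo_eq e, algo_eq (e.trans f)]
  · intro K D
    obtain ⟨a, ch, ch', h0, h1, h2⟩ := same_pair K D
    exact ⟨_, inferInstance, _, _, ⟨a, ch, ⟨RelIso.refl _⟩⟩, ⟨a, ch', ⟨RelIso.refl _⟩⟩, h0, h1, h2⟩

end Pool.Agent.LWP
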