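import Pool.Agent.LWP.Rank

/-!
# Layer 2
-/

set_option autoImplicit false

namespace Pool.Agent.LWP

open Finset Classical Pool.Agent.CoWL

variable {a n : ℕ} {ch : E a → ZMod 2} {R : ℕ → ℕ → ℕ → ℕ → Bool} {V : Pt a → ℕ}

/-- the value with the smaller point over `(i, {j})` -/
noncomputable def L2_m (V : Pt a → ℕ) (i j : E a) : ZMod 2 :=
  if V (Pt.p2 i {j} 0) < V (Pt.p2 i {j} 1) then 0 else 1

/-- the chosen value over `(i, {j})` -/
noncomputable def L2_x (V : Pt a → ℕ) (i j : E a) : ZMod 2 :=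
  if V (Pt.el i) < V (Pt.el j) then L2_m V i j else tt i j + L2_m V j i

lemma L2_zmod2 (v : ZMod 2) : v = 0 ∨ v = 1 := by
  revert v; decide

lemma L2_r4 (h : Mod ch n R V) (e i : E a) (Z : Finset (E a)) (v : ZMod 2) :
    R 4 (V (Pt.el e)) (V (Pt.p2 i Z v)) (V (Pt.p2 i Z v)) = true ↔ e ∈ Z := by
  rw [h.r4]
  constructor
  · rintro ⟨j, i', Z', v', hj, h1, h2⟩
    have h1' := h.inj h1
    have h2' := h.inj h2
    injection h1' with h3
    injection h2' with h4 h5 h6
    rw [h3, h5]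
    exact hj
  · intro he
    exact ⟨e, i, Z, v, he, rfl, rfl⟩

lemma L2_all (h : Mod ch n R V) (i : E a) (Z : Finset (E a)) (v : ZMod 2) (f : ℕ → Bool) :
    allB n (fun e => !(R 0 e e e) || (R 4 e (V (Pt.p2 i Z v)) (V (Pt.p2 i Z v)) == f e)) = true ↔
      ∀ e, e ∈ Z ↔ f (V (Pt.el e)) = true := by
  rw [allB_iff]
  constructor
  · intro H e
    have h1 := H (V (Pt.el e)) (h.lt _)
    have h2 : R 0 (V (Pt.el e)) (V (Pt.el e)) (V (Pt.el e)) = true := (h.r0 _).2 ⟨e, rfl⟩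
    rw [h2, Bool.not_true, Bool.false_or, beq_iff_eq] at h1
    rw [← L2_r4 h e i Z v, h1]
  · intro H x hx
    by_cases h2 : R 0 x x x = true
    · obtain ⟨e, rfl⟩ := (h.r0 _).1 h2
      rw [h2, Bool.not_true, Bool.false_or, beq_iff_eq, Bool.eq_iff_iff, L2_r4 h]
      exact H e
    · rw [Bool.not_eq_true] at h2
      rw [h2]
      rfl

lemma L2_sing (h : Mod ch n R V) (i j : E a) (p : ℕ) :
    sing n R (V (Pt.el i)) (V (Pt.el j)) p = true ↔ ∃ v, p = V (Pt.p2 i {j} v) := by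
  unfold sing
  rw [Bool.and_eq_true, h.r3]
  constructor
  · rintro ⟨⟨i', Z, v, h1, rfl⟩, h2⟩
    have h1' := h.inj h1
    injection h1' with h3
    subst h3
    rw [L2_all h i Z v (fun e => decide (e = V (Pt.el j)))] at h2
    refine ⟨v, ?_⟩
    have h4 : Z = {j} := by
      ext e
      rw [h2 e, Finset.mem_singleton, decide_eq_true_iff, h.eq]
      constructor
      · intro h5
        injection h5
      · intro h5
        rw [h5]
    rw [h4]
  · rintro ⟨v, rfl⟩
    refine ⟨⟨i, {j}, v, rfl, rfl⟩, ?_⟩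
    rw [L2_all h i {j} v (fun e => decide (e = V (Pt.el j)))]
    intro e
    rw [Finset.mem_singleton, decide_eq_true_iff, h.eq]
    constructor
    · intro h5
      rw [h5]
    · intro h5
      injection h5

lemma L2_m_le (V : Pt a → ℕ) (i j : E a) (v : ZMod 2) :
    V (Pt.p2 i {j} (L2_m V i j)) ≤ V (Pt.p2 i {j} v) := by
  unfold L2_m
  by_cases h1 : V (Pt.p2 i {j} 0) < V (Pt.p2 i {j} 1)
  · rw [if_pos h1]
    rcases L2_zmod2 v with rfl | rfl
    · exact le_rfl
    · exact h1.le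
  · rw [if_neg h1]
    rcases L2_zmod2 v with rfl | rfl
    · exact not_lt.1 h1
    · exact le_rfl

lemma L2_low (h : Mod ch n R V) (i j : E a) (p : ℕ) :
    low n R (V (Pt.el i)) (V (Pt.el j)) p = true ↔ p = V (Pt.p2 i {j} (L2_m V i j)) := by
  unfold low
  rw [Bool.and_eq_true, L2_sing h, allB_iff]
  constructor
  · rintro ⟨⟨v, rfl⟩, h2⟩
    have h3 := h2 (V (Pt.p2 i {j} (L2_m V i j))) (h.lt _)
    have h4 : sing n R (V (Pt.el i)) (V (Pt.el j)) (V (Pt.p2 i {j} (L2_m V i j))) = true :=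
      (L2_sing h i j _).2 ⟨_, rfl⟩
    rw [h4, Bool.not_true, Bool.or_false, Bool.not_eq_true', decide_eq_false_iff_not, not_lt] at h3
    exact le_antisymm h3 (L2_m_le V i j v)
  · rintro rfl
    refine ⟨⟨_, rfl⟩, fun q _ => ?_⟩
    by_cases h2 : sing n R (V (Pt.el i)) (V (Pt.el j)) q = true
    · obtain ⟨v, rfl⟩ := (L2_sing h i j q).1 h2
      rw [h2, Bool.not_true, Bool.or_false, Bool.not_eq_true', decide_eq_false_iff_not, not_lt]
      exact L2_m_le V i j v
    · rw [Bool.not_eq_true] at h2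
      rw [h2, Bool.not_false, Bool.or_true]

lemma L2_x_pos {i j : E a} (hij : V (Pt.el i) < V (Pt.el j)) : L2_x V i j = L2_m V i j := by
  unfold L2_x
  rw [if_pos hij]

lemma L2_x_neg {i j : E a} (hij : V (Pt.el j) < V (Pt.el i)) :
    L2_x V i j = tt i j + L2_m V j i := by
  unfold L2_x
  rw [if_neg (not_lt.2 hij.le)]

lemma L2_two (v w u : ZMod 2) : v + w = u ↔ v = u + w := by
  revert v w u; decide

lemma L2_r7 (h : Mod ch n R V) (i j : E a) (hij : i ≠ j) (v w : ZMod 2) :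
    R 7 (V (Pt.p2 i {j} v)) (V (Pt.p2 j {i} w)) (V (Pt.p2 j {i} w)) = true ↔ v = tt i j + w := by
  rw [h.r7]
  constructor
  · rintro ⟨i', j', v', w', h0, h1, h2, h3⟩
    have h2' := h.inj h2
    have h3' := h.inj h3
    injection h2' with h4 h5 h6
    injection h3' with h7 h8 h9
    subst h4; subst h6; subst h7; subst h9
    exact (L2_two _ _ _).1 h1
  · intro h1
    exact ⟨i, j, v, w, hij, (L2_two _ _ _).2 h1, rfl, rfl⟩

lemma L2_base (h : Mod ch n R V) (p : ℕ) : base2 n R p = true ↔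
    (∃ i, p = V (Pt.p2 i ∅ 0)) ∨ ∃ i j, i ≠ j ∧ p = V (Pt.p2 i {j} (L2_x V i j)) := by
  unfold base2
  rw [Bool.or_eq_true, h.r5, exB_iff]
  refine or_congr Iff.rfl ?_
  constructor
  · rintro ⟨x, -, hx⟩
    rw [Bool.and_eq_true, exB_iff] at hx
    obtain ⟨h1, y, -, hy⟩ := hx
    rw [Bool.and_eq_true, Bool.and_eq_true, Bool.or_eq_true, Bool.and_eq_true, Bool.and_eq_true,
      decide_eq_true_iff, decide_eq_true_iff, exB_iff] at hy
    obtain ⟨h2, h3, h4⟩ := hy
    obtain ⟨i, rfl⟩ := (h.r0 _).1 h1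
    obtain ⟨j, rfl⟩ := (h.r0 _).1 h2
    rcases h4 with ⟨h5, h6⟩ | ⟨h5, q, -, h6⟩
    · refine ⟨i, j, ?_, ?_⟩
      · rintro rfl
        exact lt_irrefl _ h5
      · rw [L2_x_pos h5]
        exact (L2_low h i j p).1 h6
    · rw [Bool.and_eq_true, L2_low h] at h6
      obtain ⟨rfl, h7⟩ := h6
      obtain ⟨v, rfl⟩ := (L2_sing h i j p).1 h3
      have hij : i ≠ j := by
        rintro rfl
        exact lt_irrefl _ h5
      refine ⟨i, j, hij, ?_⟩
      rw [L2_x_neg h5, (L2_r7 h i j hij _ _).1 h7]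
  · rintro ⟨i, j, hij, rfl⟩
    refine ⟨V (Pt.el i), h.lt _, ?_⟩
    rw [Bool.and_eq_true, exB_iff]
    refine ⟨(h.r0 _).2 ⟨i, rfl⟩, V (Pt.el j), h.lt _, ?_⟩
    rw [Bool.and_eq_true, Bool.and_eq_true, Bool.or_eq_true, Bool.and_eq_true, Bool.and_eq_true,
      decide_eq_true_iff, decide_eq_true_iff, exB_iff]
    refine ⟨(h.r0 _).2 ⟨j, rfl⟩, (L2_sing h i j _).2 ⟨_, rfl⟩, ?_⟩
    rcases lt_trichotomy (V (Pt.el i)) (V (Pt.el j)) with h5 | h5 | h5
    · left
      refine ⟨h5, ?_⟩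
      rw [L2_x_pos h5]
      exact (L2_low h i j _).2 rfl
    · exfalso
      have h6 := h.inj h5
      injection h6 with h7
      exact hij h7
    · right
      refine ⟨h5, V (Pt.p2 j {i} (L2_m V j i)), h.lt _, ?_⟩
      rw [Bool.and_eq_true]
      exact ⟨(L2_low h j i _).2 rfl, (L2_r7 h i j hij _ _).2 (L2_x_neg h5)⟩

lemma L2_P2_insert (x : E a → E a → ZMod 2) (i j : E a) (Z : Finset (E a)) (hj : j ∉ Z) :
    P2 x i (insert j Z) = P2 x i Z + x i j := by
  unfold P2
  rw [Finset.sum_insert hj, add_comm]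

lemma L2_P2_single (x : E a → E a → ZMod 2) (i j : E a) : P2 x i {j} = x i j := by
  unfold P2
  rw [Finset.sum_singleton]

lemma L2_P2_empty (x : E a → E a → ZMod 2) (i : E a) : P2 x i ∅ = 0 := by
  unfold P2
  rw [Finset.sum_empty]

lemma L2_sound (h : Mod ch n R V) (p : ℕ) (hp : p ∈ S2 n R) :
    ∃ i Z, i ∉ Z ∧ p = V (Pt.p2 i Z (P2 (L2_x V) i Z)) := by
  unfold S2 at hp
  refine (clo_sound (fun p => ∃ i Z, i ∉ Z ∧ p = V (Pt.p2 i Z (P2 (L2_x V) i Z))) ?_ ?_ p hp).2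
  · intro y _ hb
    rcases (L2_base h y).1 hb with ⟨i, rfl⟩ | ⟨i, j, hij, rfl⟩
    · refine ⟨i, ∅, by simp, ?_⟩
      rw [L2_P2_empty]
    · refine ⟨i, {j}, by simpa using hij, ?_⟩
      rw [L2_P2_single]
  · rintro _ _ r ⟨i, Z, hi, rfl⟩ ⟨i', Z', hi', rfl⟩ h6
    obtain ⟨i1, j, Z1, v, v', hj, h1, h2, rfl⟩ := (h.r6 _ _ _).1 h6
    have h1' := h.inj h1
    have h2' := h.inj h2
    injection h1' with h3 h4 h5
    injection h2' with h7 h8 h9
    subst h3; subst h4; subst h5; subst h7; subst h8; subst h9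
    refine ⟨i', insert j Z, ?_, ?_⟩
    · rw [Finset.mem_insert, not_or]
      exact ⟨fun hh => hi' (by simpa using hh), hi⟩
    · rw [L2_P2_insert _ _ _ _ hj, L2_P2_single]

lemma L2_complete (h : Mod ch n R V) (i : E a) (Z : Finset (E a)) (hi : i ∉ Z) :
    V (Pt.p2 i Z (P2 (L2_x V) i Z)) ∈ S2 n R := by
  unfold S2
  refine clo_complete (fun k y => ∃ i Z, i ∉ Z ∧ Z.card ≤ k + 1 ∧
    y = V (Pt.p2 i Z (P2 (L2_x V) i Z))) ?_ ?_ ?_ n _ le_rfl ⟨i, Z, hi, ?_, rfl⟩
  · rintro k _ ⟨i, Z, -, -, rfl⟩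
    exact h.lt _
  · rintro _ ⟨i, Z, hi, hc, rfl⟩
    rw [L2_base h]
    rcases Z.eq_empty_or_nonempty with rfl | hne
    · left
      exact ⟨i, by rw [L2_P2_empty]⟩
    · right
      have h1 : Z.card = 1 := by
        have := hne.card_pos
        omega
      obtain ⟨j, rfl⟩ := Finset.card_eq_one.1 h1
      refine ⟨i, j, by simpa using hi, ?_⟩
      rw [L2_P2_single]
  · rintro k _ ⟨i, Z, hi, hc, rfl⟩
    by_cases h1 : Z.card ≤ k + 1
    · left
      exact ⟨i, Z, hi, h1, rfl⟩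
    · right
      have hne : Z.Nonempty := by
        rw [← Finset.card_pos]
        omega
      obtain ⟨j, hj⟩ := hne
      refine ⟨V (Pt.p2 i (Z.erase j) (P2 (L2_x V) i (Z.erase j))),
        V (Pt.p2 i {j} (P2 (L2_x V) i {j})), ⟨i, Z.erase j, ?_, ?_, rfl⟩, ⟨i, {j}, ?_, ?_, rfl⟩, ?_⟩
      · intro hh
        exact hi (Finset.mem_of_mem_erase hh)
      · rw [Finset.card_erase_of_mem hj]
        omega
      · rw [Finset.mem_singleton]
        rintro rfl
        exact hi hj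
      · rw [Finset.card_singleton]
        omega
      · rw [h.r6]
        refine ⟨i, j, Z.erase j, _, _, Finset.notMem_erase j Z, rfl, rfl, ?_⟩
        rw [L2_P2_single, ← L2_P2_insert _ _ _ _ (Finset.notMem_erase j Z),
          Finset.insert_erase hj]
  · have h1 : Z.card ≤ Fintype.card (E a) := Finset.card_le_univ Z
    have h2 : Fintype.card (E a) = a * 2 := by simp
    have h3 := h.two_mul_le
    omega

lemma L2_full (h : Mod ch n R V) (p : ℕ) :
    full n R p = true ↔ ∃ i v, p = V (Pt.p2 i (univ.erase i) v) := by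
  unfold full
  rw [exB_iff]
  constructor
  · rintro ⟨x, -, hx⟩
    rw [Bool.and_eq_true, h.r3] at hx
    obtain ⟨⟨i, Z, v, rfl, rfl⟩, h2⟩ := hx
    rw [L2_all h i Z v (fun e => !(decide (e = V (Pt.el i))))] at h2
    refine ⟨i, v, ?_⟩
    have h4 : Z = univ.erase i := by
      ext e
      rw [h2 e, Bool.not_eq_true', decide_eq_false_iff_not, h.eq]
      simp only [Finset.mem_erase, Finset.mem_univ, and_true, ne_eq]
      refine not_congr ?_
      constructor
      · intro h5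
        injection h5
      · intro h5
        rw [h5]
    rw [h4]
  · rintro ⟨i, v, rfl⟩
    refine ⟨V (Pt.el i), h.lt _, ?_⟩
    rw [Bool.and_eq_true, h.r3]
    refine ⟨⟨i, univ.erase i, v, rfl, rfl⟩, ?_⟩
    rw [L2_all h i (univ.erase i) v (fun e => !(decide (e = V (Pt.el i))))]
    intro e
    rw [Bool.not_eq_true', decide_eq_false_iff_not, h.eq]
    simp only [Finset.mem_erase, Finset.mem_univ, and_true, ne_eq]
    refine not_congr ?_
    constructor
    · intro h5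
      rw [h5]
    · intro h5
      injection h5

lemma L2_lnk (h : Mod ch n R V) : Lnk (piP (vel V) h.vel_inj) (L2_x V) := by
  intro i j hij
  rw [tt_piP]
  have h1 := tt_add hij
  rcases lt_trichotomy (V (Pt.el i)) (V (Pt.el j)) with h5 | h5 | h5
  · have h6 : vel V i < vel V j := h5
    rw [if_pos h6, L2_x_pos h5, L2_x_neg h5]
    have h7 : ∀ m s t : ZMod 2, s + t = 1 → m + (t + m) = 1 + s := by decide
    exact h7 _ _ _ h1
  · exfalso
    have h6 := h.inj h5
    injection h6 with h7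
    exact hij h7
  · have h6 : ¬ vel V i < vel V j := not_lt.2 h5.le
    rw [if_neg h6, L2_x_neg h5, L2_x_pos h5]
    have h7 : ∀ m s : ZMod 2, s + m + m = 0 + s := by decide
    exact h7 _ _

lemma L2_card (h : Mod ch n R V) :
    T2 n R = (univ.filter (fun i : E a => P2 (L2_x V) i (univ.erase i) ≠ ch i)).card := by
  unfold T2 S2
  rw [← List.toFinset_card_of_nodup (List.Nodup.filter _ (nodup_clo n (R 6) (base2 n R)))]
  symm
  refine Finset.card_bij (fun i _ => V (Pt.p2 i (univ.erase i) (P2 (L2_x V) i (univ.erase i))))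
    ?_ ?_ ?_
  · intro i hi
    rw [Finset.mem_filter] at hi
    rw [List.mem_toFinset, List.mem_filter, Bool.and_eq_true, Bool.not_eq_true']
    refine ⟨L2_complete h i _ (Finset.notMem_erase i univ), (L2_full h _).2 ⟨i, _, rfl⟩, ?_⟩
    rw [← Bool.not_eq_true, h.r8]
    rintro ⟨j, hj⟩
    have h1 := h.inj hj
    injection h1 with h2 h3 h4
    subst h2
    exact hi.2 h4
  · intro i _ j _ hij
    have h1 := h.inj hij
    injection h1
  · intro p hp
    rw [List.mem_toFinset, List.mem_filter, Bool.and_eq_true, Bool.not_eq_true',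
      ← Bool.not_eq_true, h.r8, L2_full h] at hp
    obtain ⟨h1, ⟨i, v, rfl⟩, h2⟩ := hp
    obtain ⟨i', Z, hi, h3⟩ := L2_sound h _ h1
    have h4 := h.inj h3
    injection h4 with h5 h6 h7
    subst h5; subst h6
    refine ⟨i, ?_, ?_⟩
    · rw [Finset.mem_filter]
      refine ⟨Finset.mem_univ _, fun h8 => h2 ⟨i, ?_⟩⟩
      rw [h7, h8]
    · rw [h7]

theorem T2_eq (h : Mod ch n R V) :
    (T2 n R : ZMod 2) = ∑ i, ch i + mu (Equiv.Perm.sign (piP (vel V) h.vel_inj)) := by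
  have h1 := parity (L2_lnk h)
  have h2 : mu (Equiv.Perm.sign (piP (vel V) h.vel_inj)) =
      ∑ i, P2 (L2_x V) i (univ.erase i) := by
    rw [h1]
    rfl
  rw [L2_card h, h2, ← Finset.sum_add_distrib, Finset.card_filter, Nat.cast_sum]
  refine Finset.sum_congr rfl fun i _ => ?_
  have h3 : ∀ s t : ZMod 2, ((if s ≠ t then 1 else 0 : ℕ) : ZMod 2) = t + s := by decide
  rw [← h3]

end Pool.Agent.LWP
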