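import Pool.Agent.LWP.Alg
import Pool.Agent.CoWL.Layer2
import Pool.Agent.CoWL.Layer3

/-!
# Decoded structures

`Mod ch n R V`: `V` numbers the points by different numbers below `n`, and `R l` is the image of the
relation `Rel ch l`.
-/

set_option autoImplicit false

namespace Pool.Agent.LWP

open Finset Classical Pool.Agent.CoWL

structure Mod {a : ℕ} (ch : E a → ZMod 2) (n : ℕ) (R : ℕ → ℕ → ℕ → ℕ → Bool) (V : Pt a → ℕ) :
    Prop where
  inj : Function.Injective V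
  lt : ∀ p, V p < n
  iff : ∀ (l : Fin 15) (x y z : ℕ), R l.val x y z = true ↔
    ∃ p q r, V p = x ∧ V q = y ∧ V r = z ∧ Rel ch l p q r

variable {a n : ℕ} {ch : E a → ZMod 2} {R : ℕ → ℕ → ℕ → ℕ → Bool} {V : Pt a → ℕ}

namespace Mod

lemma eq (h : Mod ch n R V) {p q : Pt a} : V p = V q ↔ p = q := h.inj.eq_iff

/-- the relation at points -/
lemma at' (h : Mod ch n R V) (l : Fin 15) (p q r : Pt a) :
    R l.val (V p) (V q) (V r) = true ↔ Rel ch l p q r := by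
  rw [h.iff]
  constructor
  · rintro ⟨p', q', r', h1, h2, h3, h4⟩
    rw [h.eq] at h1 h2 h3
    subst h1; subst h2; subst h3
    exact h4
  · intro h4
    exact ⟨p, q, r, rfl, rfl, rfl, h4⟩

lemma r0 (h : Mod ch n R V) (x : ℕ) : R 0 x x x = true ↔ ∃ i, x = V (Pt.el i) := by
  refine (h.iff 0 x x x).trans ?_
  constructor
  · rintro ⟨p, q, r, rfl, -, -, h4⟩
    cases h4
    exact ⟨_, rfl⟩
  · rintro ⟨i, rfl⟩
    exact ⟨_, _, _, rfl, rfl, rfl, Rel.isEl i⟩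

lemma r1 (h : Mod ch n R V) (x : ℕ) : R 1 x x x = true ↔ ∃ i Z v, x = V (Pt.p2 i Z v) := by
  refine (h.iff 1 x x x).trans ?_
  constructor
  · rintro ⟨p, q, r, rfl, -, -, h4⟩
    cases h4
    exact ⟨_, _, _, rfl⟩
  · rintro ⟨i, Z, v, rfl⟩
    exact ⟨_, _, _, rfl, rfl, rfl, Rel.is2 i Z v⟩

lemma r2 (h : Mod ch n R V) (x : ℕ) : R 2 x x x = true ↔ ∃ A B v, x = V (Pt.p3 A B v) := by
  refine (h.iff 2 x x x).trans ?_
  constructor
  · rintro ⟨p, q, r, rfl, -, -, h4⟩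
    cases h4
    exact ⟨_, _, _, rfl⟩
  · rintro ⟨A, B, v, rfl⟩
    exact ⟨_, _, _, rfl, rfl, rfl, Rel.is3 A B v⟩

lemma r3 (h : Mod ch n R V) (x y : ℕ) :
    R 3 x y y = true ↔ ∃ i Z v, x = V (Pt.el i) ∧ y = V (Pt.p2 i Z v) := by
  refine (h.iff 3 x y y).trans ?_
  constructor
  · rintro ⟨p, q, r, rfl, rfl, -, h4⟩
    cases h4
    exact ⟨_, _, _, rfl, rfl⟩
  · rintro ⟨i, Z, v, rfl, rfl⟩
    exact ⟨_, _, _, rfl, rfl, rfl, Rel.i2 i Z v⟩

lemma r4 (h : Mod ch n R V) (x y : ℕ) :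
    R 4 x y y = true ↔ ∃ j i Z v, j ∈ Z ∧ x = V (Pt.el j) ∧ y = V (Pt.p2 i Z v) := by
  refine (h.iff 4 x y y).trans ?_
  constructor
  · rintro ⟨p, q, r, rfl, rfl, -, h4⟩
    cases h4 with
    | z2 j i Z v h => exact ⟨_, _, _, _, h, rfl, rfl⟩
  · rintro ⟨j, i, Z, v, h, rfl, rfl⟩
    exact ⟨_, _, _, rfl, rfl, rfl, Rel.z2 j i Z v h⟩

lemma r5 (h : Mod ch n R V) (x : ℕ) : R 5 x x x = true ↔ ∃ i, x = V (Pt.p2 i ∅ 0) := by
  refine (h.iff 5 x x x).trans ?_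
  constructor
  · rintro ⟨p, q, r, rfl, -, -, h4⟩
    cases h4
    exact ⟨_, rfl⟩
  · rintro ⟨i, rfl⟩
    exact ⟨_, _, _, rfl, rfl, rfl, Rel.zero2 i⟩

lemma r6 (h : Mod ch n R V) (x y z : ℕ) : R 6 x y z = true ↔ ∃ i j Z v v', j ∉ Z ∧
    x = V (Pt.p2 i Z v) ∧ y = V (Pt.p2 i {j} v') ∧ z = V (Pt.p2 i (insert j Z) (v + v')) := by
  refine (h.iff 6 x y z).trans ?_
  constructor
  · rintro ⟨p, q, r, rfl, rfl, rfl, h4⟩
    cases h4 with
    | add2 i j Z v v' h => exact ⟨_, _, _, _, _, h, rfl, rfl, rfl⟩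
  · rintro ⟨i, j, Z, v, v', h, rfl, rfl, rfl⟩
    exact ⟨_, _, _, rfl, rfl, rfl, Rel.add2 i j Z v v' h⟩

lemma r7 (h : Mod ch n R V) (x y : ℕ) : R 7 x y y = true ↔ ∃ i j v v', i ≠ j ∧ v + v' = tt i j ∧
    x = V (Pt.p2 i {j} v) ∧ y = V (Pt.p2 j {i} v') := by
  refine (h.iff 7 x y y).trans ?_
  constructor
  · rintro ⟨p, q, r, rfl, rfl, -, h4⟩
    cases h4 with
    | lnk2 i j v v' h h' => exact ⟨_, _, _, _, h, h', rfl, rfl⟩
  · rintro ⟨i, j, v, v', h, h', rfl, rfl⟩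
    exact ⟨_, _, _, rfl, rfl, rfl, Rel.lnk2 i j v v' h h'⟩

lemma r8 (h : Mod ch n R V) (x : ℕ) :
    R 8 x x x = true ↔ ∃ i, x = V (Pt.p2 i (univ.erase i) (ch i)) := by
  refine (h.iff 8 x x x).trans ?_
  constructor
  · rintro ⟨p, q, r, rfl, -, -, h4⟩
    cases h4
    exact ⟨_, rfl⟩
  · rintro ⟨i, rfl⟩
    exact ⟨_, _, _, rfl, rfl, rfl, Rel.mark2 i⟩

lemma r9 (h : Mod ch n R V) (x y : ℕ) :
    R 9 x y y = true ↔ ∃ j A B v, j ∈ A ∧ x = V (Pt.el j) ∧ y = V (Pt.p3 A B v) := by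
  refine (h.iff 9 x y y).trans ?_
  constructor
  · rintro ⟨p, q, r, rfl, rfl, -, h4⟩
    cases h4 with
    | a3 j A B v h => exact ⟨_, _, _, _, h, rfl, rfl⟩
  · rintro ⟨j, A, B, v, h, rfl, rfl⟩
    exact ⟨_, _, _, rfl, rfl, rfl, Rel.a3 j A B v h⟩

lemma r10 (h : Mod ch n R V) (x y : ℕ) :
    R 10 x y y = true ↔ ∃ j A B v, j ∈ B ∧ x = V (Pt.el j) ∧ y = V (Pt.p3 A B v) := by
  refine (h.iff 10 x y y).trans ?_
  constructor
  · rintro ⟨p, q, r, rfl, rfl, -, h4⟩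
    cases h4 with
    | b3 j A B v h => exact ⟨_, _, _, _, h, rfl, rfl⟩
  · rintro ⟨j, A, B, v, h, rfl, rfl⟩
    exact ⟨_, _, _, rfl, rfl, rfl, Rel.b3 j A B v h⟩

lemma r11 (h : Mod ch n R V) (x y z : ℕ) : R 11 x y z = true ↔ ∃ j A B v v', j ∉ A ∧ j ∉ B ∧
    x = V (Pt.p3 A B v) ∧ y = V (Pt.p3 (insert j A) B v') ∧
      z = V (Pt.p3 A (insert j B) (v + v')) := by
  refine (h.iff 11 x y z).trans ?_
  constructor
  · rintro ⟨p, q, r, rfl, rfl, rfl, h4⟩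
    cases h4 with
    | add3 j A B v v' hA hB => exact ⟨_, _, _, _, _, hA, hB, rfl, rfl, rfl⟩
  · rintro ⟨j, A, B, v, v', hA, hB, rfl, rfl, rfl⟩
    exact ⟨_, _, _, rfl, rfl, rfl, Rel.add3 j A B v v' hA hB⟩

lemma r12 (h : Mod ch n R V) (x y : ℕ) :
    R 12 x y y = true ↔ ∃ A B v, x = V (Pt.p3 A B v) ∧ y = V (Pt.p3 A B (v + 1)) := by
  refine (h.iff 12 x y y).trans ?_
  constructor
  · rintro ⟨p, q, r, rfl, rfl, -, h4⟩
    cases h4
    exact ⟨_, _, _, rfl, rfl⟩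
  · rintro ⟨A, B, v, rfl, rfl⟩
    exact ⟨_, _, _, rfl, rfl, rfl, Rel.suc3 A B v⟩

lemma r13 (h : Mod ch n R V) (x : ℕ) :
    R 13 x x x = true ↔ ∃ A : Finset (E a), A.card = a ∧ x = V (Pt.p3 A ∅ 0) := by
  refine (h.iff 13 x x x).trans ?_
  constructor
  · rintro ⟨p, q, r, rfl, -, -, h4⟩
    cases h4 with
    | mark3 A h => exact ⟨_, h, rfl⟩
  · rintro ⟨A, h, rfl⟩
    exact ⟨_, _, _, rfl, rfl, rfl, Rel.mark3 A h⟩

lemma r14 (h : Mod ch n R V) (x : ℕ) :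
    R 14 x x x = true ↔ ∃ ω : Finset (E a), ω.card = a ∧ x = V (Pt.p3 ∅ ω (cc ω)) := by
  refine (h.iff 14 x x x).trans ?_
  constructor
  · rintro ⟨p, q, r, rfl, -, -, h4⟩
    cases h4 with
    | markc ω h => exact ⟨_, h, rfl⟩
  · rintro ⟨ω, h, rfl⟩
    exact ⟨_, _, _, rfl, rfl, rfl, Rel.markc ω h⟩

end Mod

/-! ### Quantifiers over the vertices -/

lemma exB_iff {m : ℕ} {P : ℕ → Bool} : exB m P = true ↔ ∃ x, x < m ∧ P x = true := by
  unfold exB
  rw [List.any_eq_true]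
  simp only [List.mem_range]

lemma allB_iff {m : ℕ} {P : ℕ → Bool} : allB m P = true ↔ ∀ x, x < m → P x = true := by
  unfold allB
  rw [List.all_eq_true]
  simp only [List.mem_range]

lemma memB_iff {S : List ℕ} {x : ℕ} : memB S x = true ↔ x ∈ S := by
  unfold memB
  rw [List.any_eq_true]
  simp

lemma evn_iff {m : ℕ} : evn m = true ↔ Even m := by
  unfold evn
  rw [decide_eq_true_iff, Nat.even_iff]
  omega

lemma two3_iff {m : ℕ} : two3 m = true ↔ (m : ZMod 3) = 2 := by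
  unfold two3
  rw [decide_eq_true_iff]
  have h : (m : ZMod 3) = 2 ↔ (m : ZMod 3) = ((2 : ℕ) : ZMod 3) := by norm_num
  rw [h, ZMod.natCast_eq_natCast_iff]
  unfold Nat.ModEq
  omega

/-! ### The closure -/

lemma mem_stp {m : ℕ} {T : ℕ → ℕ → ℕ → Bool} {S : List ℕ} {r : ℕ} :
    r ∈ stp m T S ↔ r < m ∧ (r ∈ S ∨ ∃ p ∈ S, ∃ q ∈ S, T p q r = true) := by
  unfold stp
  rw [List.mem_filter, List.mem_range, Bool.or_eq_true, memB_iff]
  simp only [List.any_eq_true]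

lemma nodup_clo (m : ℕ) (T : ℕ → ℕ → ℕ → Bool) (B : ℕ → Bool) : (clo m T B).Nodup := by
  unfold clo
  cases m with
  | zero => simp
  | succ m =>
    rw [Function.iterate_succ_apply']
    exact List.Nodup.filter _ List.nodup_range

/-- everything in the closure satisfies every property that is closed under `T` -/
theorem clo_sound {m : ℕ} {T : ℕ → ℕ → ℕ → Bool} {B : ℕ → Bool} (P : ℕ → Prop)
    (h0 : ∀ x, x < m → B x = true → P x) (h1 : ∀ p q r, P p → P q → T p q r = true → P r) :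
    ∀ x ∈ clo m T B, x < m ∧ P x := by
  unfold clo
  have key : ∀ k : ℕ, ∀ x ∈ (stp m T)^[k] ((List.range m).filter B), x < m ∧ P x := by
    intro k
    induction k with
    | zero =>
      intro x hx
      rw [Function.iterate_zero_apply, List.mem_filter, List.mem_range] at hx
      exact ⟨hx.1, h0 x hx.1 hx.2⟩
    | succ k ih =>
      intro x hx
      rw [Function.iterate_succ_apply', mem_stp] at hx
      refine ⟨hx.1, ?_⟩
      rcases hx.2 with h | ⟨p, hp, q, hq, h⟩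
      · exact (ih x h).2
      · exact h1 p q x (ih p hp).2 (ih q hq).2 h
  exact key m

/-- completeness: a family of elements indexed by a rank `≤ m` -/
theorem clo_complete {m : ℕ} {T : ℕ → ℕ → ℕ → Bool} {B : ℕ → Bool} (Q : ℕ → ℕ → Prop)
    (hlt : ∀ k x, Q k x → x < m) (h0 : ∀ x, Q 0 x → B x = true)
    (h1 : ∀ k r, Q (k + 1) r → Q k r ∨ ∃ p q, Q k p ∧ Q k q ∧ T p q r = true) :
    ∀ k x, k ≤ m → Q k x → x ∈ clo m T B := by
  have key : ∀ k : ℕ, ∀ x, Q k x → x ∈ (stp m T)^[k] ((List.range m).filter B) := by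
    intro k
    induction k with
    | zero =>
      intro x hx
      rw [Function.iterate_zero_apply, List.mem_filter, List.mem_range]
      exact ⟨hlt 0 x hx, h0 x hx⟩
    | succ k ih =>
      intro x hx
      rw [Function.iterate_succ_apply', mem_stp]
      refine ⟨hlt _ x hx, ?_⟩
      rcases h1 k x hx with h | ⟨p, q, hp, hq, h⟩
      · exact Or.inl (ih x h)
      · exact Or.inr ⟨p, ih p hp, q, ih q hq, h⟩
  have mono : ∀ k j : ℕ, ∀ x ∈ (stp m T)^[k] ((List.range m).filter B),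
      x ∈ (stp m T)^[k + j] ((List.range m).filter B) := by
    intro k j
    induction j with
    | zero => intro x hx; exact hx
    | succ j ih =>
      intro x hx
      rw [← add_assoc, Function.iterate_succ_apply', mem_stp]
      have h := ih x hx
      refine ⟨?_, Or.inl h⟩
      rcases Nat.eq_zero_or_pos (k + j) with h2 | h2
      · rw [h2, Function.iterate_zero_apply, List.mem_filter, List.mem_range] at h
        exact h.1
      · obtain ⟨l, hl⟩ := Nat.exists_eq_succ_of_ne_zero h2.ne'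
        rw [hl, Function.iterate_succ_apply', mem_stp] at h
        exact h.1
  intro k x hk hx
  unfold clo
  have h := mono k (m - k) x (key k x hx)
  rwa [Nat.add_sub_cancel' hk] at h

end Pool.Agent.LWP
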