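import Pool.Agent.LWP.ModL

/-!
# Ranks of the elements
-/

set_option autoImplicit false

namespace Pool.Agent.LWP

open Finset Classical Pool.Agent.CoWL

variable {a : ℕ}

/-- number of elements with a smaller value -/
noncomputable def rkN (f : E a → ℕ) (i : E a) : ℕ := (univ.filter (fun j => f j < f i)).card

lemma rkN_lt (f : E a → ℕ) (i : E a) : rkN f i < Fintype.card (E a) := by
  unfold rkN
  rw [← Finset.card_univ]
  refine Finset.card_lt_card ?_
  rw [Finset.ssubset_univ_iff]
  intro h
  have := Finset.eq_univ_iff_forall.1 h i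
  simp at this

lemma rkN_mono {f : E a → ℕ} {i j : E a} (h : f i < f j) : rkN f i < rkN f j := by
  unfold rkN
  refine Finset.card_lt_card ⟨fun k hk => ?_, fun hc => ?_⟩
  · simp only [Finset.mem_filter, Finset.mem_univ, true_and] at hk ⊢
    omega
  · have := hc (show i ∈ univ.filter (fun k => f k < f j) by simp [h])
    simp at this

lemma rkN_lt_iff {f : E a → ℕ} (hf : Function.Injective f) {i j : E a} :
    rkN f i < rkN f j ↔ f i < f j := by
  refine ⟨fun h => ?_, rkN_mono⟩
  rcases lt_trichotomy (f i) (f j) with h1 | h1 | h1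
  · exact h1
  · rw [hf h1] at h; omega
  · have := rkN_mono h1; omega

/-- the numbering by rank -/
noncomputable def rkE (f : E a → ℕ) (hf : Function.Injective f) : E a ≃ Fin (Fintype.card (E a)) :=
  Equiv.ofBijective (fun i => ⟨rkN f i, rkN_lt f i⟩) (by
    rw [Fintype.bijective_iff_injective_and_card]
    refine ⟨fun i j hij => ?_, by simp⟩
    have h := Fin.mk.inj_iff.1 hij
    rcases lt_trichotomy (f i) (f j) with h1 | h1 | h1
    · have := rkN_mono h1; omega
    · exact hf h1
    · have := rkN_mono h1; omega)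

lemma rkE_val (f : E a → ℕ) (hf : Function.Injective f) (i : E a) :
    (rkE f hf i).val = rkN f i := rfl

/-- the standard numbering: `(l, b)` has the number `2 l + b` -/
noncomputable def kapE (a : ℕ) : E a ≃ Fin (Fintype.card (E a)) :=
  Equiv.ofBijective (fun i => ⟨2 * i.1.val + (if i.2 then 1 else 0), by
    have h1 := i.1.isLt
    have h2 : Fintype.card (E a) = a * 2 := by simp
    rw [h2]
    split_ifs <;> omega⟩) (by
    rw [Fintype.bijective_iff_injective_and_card]
    refine ⟨fun i j hij => ?_, by simp⟩
    have h := Fin.mk.inj_iff.1 hij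
    obtain ⟨i, b⟩ := i
    obtain ⟨j, c⟩ := j
    simp only at h
    have h1 : i = j := by
      apply Fin.ext
      cases b <;> cases c <;> simp at h <;> omega
    subst h1
    cases b <;> cases c <;> simp at h ⊢)

lemma kapE_val (l : Fin a) (b : Bool) :
    (kapE a (l, b)).val = 2 * l.val + (if b then 1 else 0) := rfl

/-- the permutation which maps the element of rank `m` to the element with key `m` -/
noncomputable def piP (f : E a → ℕ) (hf : Function.Injective f) : Equiv.Perm (E a) :=
  (rkE f hf).trans (Fintype.equivFin (E a)).symm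

/-- the permutation which maps `(l, b)` to the element of rank `2 l + b` -/
noncomputable def rhoP (f : E a → ℕ) (hf : Function.Injective f) : Equiv.Perm (E a) :=
  (kapE a).trans (rkE f hf).symm

lemma key_piP (f : E a → ℕ) (hf : Function.Injective f) (i : E a) :
    key (piP f hf i) = rkN f i := by
  unfold key piP
  rw [Equiv.trans_apply, Equiv.apply_symm_apply, rkE_val]

lemma tt_piP (f : E a → ℕ) (hf : Function.Injective f) (i j : E a) :
    tt (piP f hf i) (piP f hf j) = if f i < f j then 1 else 0 := by
  unfold tt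
  simp only [key_piP, rkN_lt_iff hf]

lemma rkN_rhoP (f : E a → ℕ) (hf : Function.Injective f) (l : Fin a) (b : Bool) :
    rkN f (rhoP f hf (l, b)) = 2 * l.val + (if b then 1 else 0) := by
  rw [← rkE_val f hf, ← kapE_val]
  unfold rhoP
  rw [Equiv.trans_apply, Equiv.apply_symm_apply]

/-- a constant that depends only on `a` -/
noncomputable def eps0 (a : ℕ) : ZMod 2 :=
  mu (Equiv.Perm.sign ((kapE a).trans (Fintype.equivFin (E a)).symm))

lemma mu_pi_rho (f : E a → ℕ) (hf : Function.Injective f) :
    mu (Equiv.Perm.sign (piP f hf)) + mu (Equiv.Perm.sign (rhoP f hf)) = eps0 a := by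
  rw [← mu_mul, ← Equiv.Perm.sign_mul]
  unfold eps0
  congr 2
  ext1 i
  unfold piP rhoP
  rw [Equiv.Perm.mul_apply]
  simp only [Equiv.trans_apply, Equiv.apply_symm_apply]

/-! ### Counting vertices -/

/-- the number of vertices with a property as the number of elements of a finite type -/
lemma length_filter_range {ι : Type} [Fintype ι] (n : ℕ) (g : ι → ℕ) (hg : Function.Injective g)
    (hn : ∀ i, g i < n) (P : ℕ → Bool) (Q : ι → Prop) [DecidablePred Q]
    (h : ∀ x, x < n → (P x = true ↔ ∃ i, g i = x ∧ Q i)) :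
    ((List.range n).filter P).length = (univ.filter Q).card := by
  have h1 : ((List.range n).filter P).length = ((Finset.range n).filter (fun x => P x = true)).card := by
    rw [← List.toFinset_card_of_nodup (List.Nodup.filter _ List.nodup_range)]
    congr 1
    ext x
    simp
  rw [h1]
  symm
  refine Finset.card_bij (fun i _ => g i) ?_ ?_ ?_
  · intro i hi
    rw [Finset.mem_filter, Finset.mem_range]
    exact ⟨hn i, (h _ (hn i)).2 ⟨i, rfl, (Finset.mem_filter.1 hi).2⟩⟩
  · intro i _ j _ hij
    exact hg hij
  · intro x hx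
    rw [Finset.mem_filter, Finset.mem_range] at hx
    obtain ⟨i, hi, hQ⟩ := (h x hx.1).1 hx.2
    exact ⟨i, by simp [hQ], hi⟩

variable {n : ℕ} {ch : E a → ZMod 2} {R : ℕ → ℕ → ℕ → ℕ → Bool} {V : Pt a → ℕ}

/-- the numbers of the elements -/
def vel (V : Pt a → ℕ) (i : E a) : ℕ := V (Pt.el i)

lemma Mod.vel_inj (h : Mod ch n R V) : Function.Injective (vel V) := by
  intro i j hij
  have := h.inj hij
  injection this

lemma Mod.rk_eq (h : Mod ch n R V) (i : E a) : rk n R (V (Pt.el i)) = rkN (vel V) i := by
  unfold rk rkN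
  refine length_filter_range n (vel V) h.vel_inj (fun i => h.lt _) _ _ fun x _ => ?_
  rw [Bool.and_eq_true, decide_eq_true_iff, h.r0]
  constructor
  · rintro ⟨⟨j, rfl⟩, h2⟩
    exact ⟨j, rfl, h2⟩
  · rintro ⟨j, rfl, h2⟩
    exact ⟨⟨j, rfl⟩, h2⟩

lemma Mod.els_length (h : Mod ch n R V) : (els n R).length = 2 * a := by
  unfold els
  rw [length_filter_range n (vel V) h.vel_inj (fun i => h.lt _) _ (fun _ => True) fun x _ => ?_]
  · simp [mul_comm]
  · rw [h.r0]
    constructor
    · rintro ⟨j, rfl⟩
      exact ⟨j, rfl, trivial⟩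
    · rintro ⟨j, rfl, _⟩
      exact ⟨j, rfl⟩

lemma Mod.two_mul_le (h : Mod ch n R V) : 2 * a ≤ n := by
  rw [← h.els_length]
  unfold els
  refine (List.length_filter_le _ _).trans ?_
  rw [List.length_range]

end Pool.Agent.LWP
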